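import Pool.Agent.D0H15.SK.Stm

/-! Project SFK, module APX: every element of `K` is near an integer at all infinite places. -/

set_option autoImplicit false

open Polynomial NumberField Module

namespace Pool.Agent.D0H25.SFK

open Pool.Agent.D0H15.SK

variable (K : Type) [Field K] [NumberField K]

/-- a bound of the conjugates of an integral basis -/
theorem exists_bound : ∃ H : ℝ, 1 ≤ H ∧ ∀ (i : Free.ChooseBasisIndex ℤ (𝓞 K)) (φ : K →+* ℂ),
    ‖φ (RingOfIntegers.basis K i : K)‖ ≤ H := by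
  classical
  refine ⟨1 + ∑ i, ∑ φ : K →+* ℂ, ‖φ (RingOfIntegers.basis K i : K)‖, ?_, ?_⟩
  · have : 0 ≤ ∑ i, ∑ φ : K →+* ℂ, ‖φ (RingOfIntegers.basis K i : K)‖ :=
      Finset.sum_nonneg (fun i _ => Finset.sum_nonneg (fun φ _ => norm_nonneg _))
    linarith
  · intro i φ
    have h1 : ‖φ (RingOfIntegers.basis K i : K)‖ ≤ ∑ φ : K →+* ℂ,
        ‖φ (RingOfIntegers.basis K i : K)‖ :=
      Finset.single_le_sum (f := fun φ : K →+* ℂ => ‖φ (RingOfIntegers.basis K i : K)‖)
        (fun φ _ => norm_nonneg _) (Finset.mem_univ φ)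
    have h2 : ∑ φ : K →+* ℂ, ‖φ (RingOfIntegers.basis K i : K)‖ ≤
        ∑ i, ∑ φ : K →+* ℂ, ‖φ (RingOfIntegers.basis K i : K)‖ :=
      Finset.single_le_sum (f := fun i => ∑ φ : K →+* ℂ, ‖φ (RingOfIntegers.basis K i : K)‖)
        (fun i _ => Finset.sum_nonneg (fun φ _ => norm_nonneg _)) (Finset.mem_univ i)
    linarith

theorem card_index : Fintype.card (Free.ChooseBasisIndex ℤ (𝓞 K)) = finrank ℚ K := by
  rw [← finrank_eq_card_chooseBasisIndex, RingOfIntegers.rank]

end Pool.Agent.D0H25.SFK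

namespace Pool.Agent.D0H25.SFK

open Pool.Agent.D0H15.SK

theorem t_APX : S_APX := by
  classical
  intro K _ _
  obtain ⟨H, hH1, hH⟩ := exists_bound K
  refine ⟨Fintype.card (Free.ChooseBasisIndex ℤ (𝓞 K)) * H + 1, by positivity, fun x => ?_⟩
  let c := (integralBasis K).repr x
  refine ⟨∑ i, ⌊c i⌋ • RingOfIntegers.basis K i, fun φ => ?_⟩
  have h1 : x = ∑ i, c i • integralBasis K i := ((integralBasis K).sum_repr x).symm
  have h2 : ((∑ i, ⌊c i⌋ • RingOfIntegers.basis K i : 𝓞 K) : K) =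
      ∑ i, (⌊c i⌋ : ℚ) • integralBasis K i := by
    show algebraMap (𝓞 K) K _ = _
    rw [map_sum]
    refine Finset.sum_congr rfl (fun i _ => ?_)
    rw [integralBasis_apply, zsmul_eq_mul, map_mul, map_intCast, Rat.smul_def]
    push_cast
    rfl
  have h3 : x - ((∑ i, ⌊c i⌋ • RingOfIntegers.basis K i : 𝓞 K) : K) =
      ∑ i, (Int.fract (c i) : ℚ) • integralBasis K i := by
    rw [h2]
    nth_rewrite 1 [h1]
    rw [← Finset.sum_sub_distrib]
    refine Finset.sum_congr rfl (fun i _ => ?_)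
    rw [← sub_smul]
    rfl
  rw [h3, map_sum]
  refine (norm_sum_le _ _).trans ?_
  have h4 : ∀ i, ‖φ ((Int.fract (c i) : ℚ) • integralBasis K i)‖ ≤ H := by
    intro i
    rw [Rat.smul_def, map_mul, norm_mul, map_ratCast, integralBasis_apply]
    have h5 : ‖((Int.fract (c i) : ℚ) : ℂ)‖ ≤ 1 := by
      have h6 : ((Int.fract (c i) : ℚ) : ℂ) = (((Int.fract (c i) : ℚ) : ℝ) : ℂ) :=
        (Complex.ofReal_ratCast _).symm
      rw [h6, Complex.norm_real, Real.norm_of_nonneg (by exact_mod_cast Int.fract_nonneg (c i))]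
      exact_mod_cast (Int.fract_lt_one (c i)).le
    have h7 := hH i φ
    calc _ ≤ 1 * H := mul_le_mul h5 h7 (norm_nonneg _) zero_le_one
      _ = H := one_mul H
  calc _ ≤ ∑ _i : Free.ChooseBasisIndex ℤ (𝓞 K), H := Finset.sum_le_sum (fun i _ => h4 i)
    _ = Fintype.card (Free.ChooseBasisIndex ℤ (𝓞 K)) * H := by
      rw [Finset.sum_const, nsmul_eq_mul, Finset.card_univ]
    _ ≤ _ := by linarith

end Pool.Agent.D0H25.SFK
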