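import Pool.Agent.D0H25.SFK.APX
import Pool.Agent.D0H87.SF.PAK

/-! Project SFK, module CNT: the number of integers of `K` with bounded conjugates. -/

set_option autoImplicit false

open Polynomial NumberField Module

namespace Pool.Agent.D0H25.SFK

open Pool.Agent.D0H15.SK

/-- a nonzero integer has a conjugate of absolute value at least one -/
theorem exists_large {K : Type} [Field K] [NumberField K] {a : 𝓞 K} (ha : a ≠ 0) :
    ∃ φ : K →+* ℂ, 1 ≤ ‖φ (a : K)‖ := by
  by_contra hcon
  push Not at hcon
  have h1 : ∀ z : InfinitePlace K, z (a : K) < 1 := by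
    intro z
    rw [← InfinitePlace.norm_embedding_eq]
    exact hcon _
  obtain ⟨w⟩ : Nonempty (InfinitePlace K) := inferInstance
  have h2 := InfinitePlace.one_le_of_lt_one (w := w) ha (fun z _ => h1 z)
  exact absurd (h1 w) (not_lt.2 h2)

theorem t_CNT : S_CNT := by
  classical
  intro K _ _
  obtain ⟨H, hH1, hH⟩ := exists_bound K
  have hcard := card_index K
  set d := finrank ℚ K with hd
  have hdpos : 0 < d := finrank_pos
  have hdR : (1 : ℝ) ≤ d := by exact_mod_cast hdpos
  refine ⟨(1 / (d * H)) ^ d, 3 ^ d, by positivity, by positivity, fun B hB => ?_⟩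
  have hfin : {a : 𝓞 K | Ht a B}.Finite := by
    have h1 := Embeddings.finite_of_norm_le K ℂ B
    refine Set.Finite.subset (h1.preimage (f := fun a : 𝓞 K => (a : K))
      (RingOfIntegers.coe_injective.injOn)) ?_
    intro a ha
    exact ⟨a.isIntegral_coe, ha⟩
  refine ⟨hfin.toFinset, fun a => by simp, ?_, ?_⟩
  · -- lower bound
    let N := ⌊B / (d * H)⌋₊
    let g : (Free.ChooseBasisIndex ℤ (𝓞 K) → Fin (N + 1)) → 𝓞 K :=
      fun c => ∑ i, ((c i : ℕ) : ℤ) • RingOfIntegers.basis K i
    have hg : Function.Injective g := by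
      intro c c' h
      have h1 := congrArg (fun a => (RingOfIntegers.basis K).repr a) h
      funext i
      have h2 := congrArg (fun f => f i) h1
      simp only [g] at h2
      rw [(RingOfIntegers.basis K).repr_sum_self, (RingOfIntegers.basis K).repr_sum_self] at h2
      exact Fin.ext (by exact_mod_cast h2)
    have hgB : ∀ c, Ht (g c) B := by
      intro c φ
      have h1 : φ ((g c : 𝓞 K) : K) = ∑ i, ((c i : ℕ) : ℂ) * φ (RingOfIntegers.basis K i : K) := by
        show φ (algebraMap (𝓞 K) K (g c)) = _
        simp only [g]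
        rw [map_sum, map_sum]
        refine Finset.sum_congr rfl (fun i _ => ?_)
        rw [zsmul_eq_mul, map_mul, map_mul]
        simp
      rw [h1]
      refine (norm_sum_le _ _).trans ?_
      have h2 : ∀ i, ‖((c i : ℕ) : ℂ) * φ (RingOfIntegers.basis K i : K)‖ ≤ B / d := by
        intro i
        rw [norm_mul, Complex.norm_natCast]
        have h3 : ((c i : ℕ) : ℝ) ≤ B / (d * H) := by
          have h4 : (c i : ℕ) ≤ N := Nat.lt_succ_iff.1 (c i).2
          exact (by exact_mod_cast h4 : ((c i : ℕ) : ℝ) ≤ N).trans
            (Nat.floor_le (by positivity))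
        calc _ ≤ B / (d * H) * H := mul_le_mul h3 (hH i φ) (norm_nonneg _) (by positivity)
          _ = B / d := by field_simp
      calc _ ≤ ∑ _i : Free.ChooseBasisIndex ℤ (𝓞 K), B / d := Finset.sum_le_sum (fun i _ => h2 i)
        _ = B := by
          rw [Finset.sum_const, nsmul_eq_mul, Finset.card_univ, hcard]
          field_simp
    have h5 : (N + 1) ^ d ≤ hfin.toFinset.card := by
      have h6 : (Finset.univ.image g).card = (N + 1) ^ d := by
        rw [Finset.card_image_of_injective _ hg, Finset.card_univ, Fintype.card_fun, hcard,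
          Fintype.card_fin]
      rw [← h6]
      refine Finset.card_le_card ?_
      intro a ha
      rw [Finset.mem_image] at ha
      obtain ⟨c, _, rfl⟩ := ha
      rw [Set.Finite.mem_toFinset]
      exact hgB c
    calc (1 / (d * H)) ^ d * B ^ d = (B / (d * H)) ^ d := by rw [← mul_pow]; congr 1; ring
      _ ≤ ((N + 1 : ℕ) : ℝ) ^ d := by
        refine pow_le_pow_left₀ (by positivity) ?_ _
        push_cast
        exact (Nat.lt_floor_add_one _).le
      _ ≤ _ := by exact_mod_cast h5
  · -- upper bound
    let W : Submodule ℝ ((K →+* ℂ) → ℂ) :=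
      Submodule.span ℝ (Set.range (fun i => canonicalEmbedding K (RingOfIntegers.basis K i : K)))
    have hW : finrank ℝ W ≤ d := by
      have := finrank_range_le_card (R := ℝ)
        (fun i => canonicalEmbedding K (RingOfIntegers.basis K i : K))
      rwa [hcard] at this
    have hWf : FiniteDimensional ℝ W := FiniteDimensional.span_of_finite ℝ (Set.finite_range _)
    let F : 𝓞 K → ((K →+* ℂ) → ℂ) := fun a => canonicalEmbedding K (a : K)
    have hF : Function.Injective F := (canonicalEmbedding_injective K).comp
      RingOfIntegers.coe_injective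
    have hFW : ∀ a, F a ∈ W := by
      intro a
      have h1 : a = ∑ i, (RingOfIntegers.basis K).repr a i • RingOfIntegers.basis K i :=
        ((RingOfIntegers.basis K).sum_repr a).symm
      have h2 : F a = ∑ i, (((RingOfIntegers.basis K).repr a i : ℤ) : ℝ) •
          canonicalEmbedding K (RingOfIntegers.basis K i : K) := by
        show canonicalEmbedding K (algebraMap (𝓞 K) K a) = _
        nth_rewrite 1 [h1]
        rw [map_sum, map_sum]
        refine Finset.sum_congr rfl (fun i _ => ?_)
        rw [zsmul_eq_mul, map_mul, map_mul]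
        funext φ
        simp
      rw [h2]
      exact Submodule.sum_mem _ (fun i _ => Submodule.smul_mem _ _
        (Submodule.subset_span ⟨i, rfl⟩))
    have hpak := Pool.Agent.D0H87.SF.PAK.t_PAK ((K →+* ℂ) → ℂ) W (hfin.toFinset.image F) B 1
      (by linarith) one_pos (fun x hx => by
        rw [Finset.mem_image] at hx
        obtain ⟨a, ha, rfl⟩ := hx
        rw [Set.Finite.mem_toFinset] at ha
        exact ⟨hFW a, (canonicalEmbedding.norm_le_iff _ _).2 ha⟩) (fun x hx y hy hxy => by
        rw [Finset.mem_image] at hx hy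
        obtain ⟨a, ha, rfl⟩ := hx
        obtain ⟨b, hb, rfl⟩ := hy
        have hab : a - b ≠ 0 := sub_ne_zero.2 (fun h => hxy (by rw [h]))
        obtain ⟨φ, hφ⟩ := exists_large hab
        have h3 : F a - F b = canonicalEmbedding K ((a - b : 𝓞 K) : K) := by
          show canonicalEmbedding K (a : K) - canonicalEmbedding K (b : K) = _
          rw [← map_sub]
          rfl
        rw [h3]
        refine hφ.trans ?_
        exact norm_le_pi_norm (canonicalEmbedding K ((a - b : 𝓞 K) : K)) φ)
    rw [Finset.card_image_of_injective _ hF] at hpak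
    calc (hfin.toFinset.card : ℝ) ≤ (1 + 2 * B / 1) ^ finrank ℝ W := hpak
      _ ≤ (1 + 2 * B / 1) ^ d := pow_le_pow_right₀ (by rw [div_one]; linarith) hW
      _ ≤ (3 * B) ^ d := by
        refine pow_le_pow_left₀ (by positivity) ?_ _
        rw [div_one]
        linarith
      _ = 3 ^ d * B ^ d := mul_pow _ _ _

end Pool.Agent.D0H25.SFK
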