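import Pool.Agent.D0H15.SK.Stm

/-!
# Project SFK, module CO: the tails of degree `≤ 2k - 2` in a given class
(adapted from `Pool.Agent.D0H87.SF.CO`)
-/

set_option autoImplicit false
set_option linter.unusedSectionVars false

open Polynomial NumberField

namespace Pool.Agent.D0H25.SFK.CO

open Pool.Agent.D0H15.SK

variable {K : Type} [Field K] [NumberField K]

/-- the polynomial of a vector -/
noncomputable def P {D : ℕ} (b : Fin D → 𝓞 K) : (𝓞 K)[X] := ∑ i : Fin D, C (b i) * X ^ (i : ℕ)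

theorem P_eval {D : ℕ} (b : Fin D → 𝓞 K) (m : 𝓞 K) : (P b).eval m = ev b m := by
  simp [P, ev, eval_finsetSum]

theorem P_deriv {D : ℕ} (b : Fin D → 𝓞 K) (m : 𝓞 K) : (derivative (P b)).eval m = dv b m := by
  rw [P, dv, derivative_sum, eval_finsetSum]
  apply Finset.sum_congr rfl
  intro i _
  rw [derivative_C_mul_X_pow, eval_C_mul, eval_pow, eval_X]
  push_cast
  ring

theorem P_coeff {D : ℕ} (b : Fin D → 𝓞 K) (l : Fin D) : (P b).coeff (l : ℕ) = b l := by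
  rw [P, finsetSum_coeff]
  simp only [coeff_C_mul, coeff_X_pow]
  rw [Finset.sum_eq_single l]
  · simp
  · intro i _ hi
    rw [if_neg (fun h => hi (Fin.ext h.symm)), mul_zero]
  · simp

theorem P_coeff_ge {D : ℕ} (b : Fin D → 𝓞 K) (l : ℕ) (hl : D ≤ l) : (P b).coeff l = 0 := by
  rw [P, finsetSum_coeff]
  simp only [coeff_C_mul, coeff_X_pow]
  apply Finset.sum_eq_zero
  intro i _
  have := i.2
  rw [if_neg (by omega), mul_zero]

theorem P_of {D : ℕ} (p : (𝓞 K)[X]) (hp : ∀ l, D ≤ l → p.coeff l = 0) :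
    P (fun l : Fin D => p.coeff (l : ℕ)) = p := by
  ext l
  by_cases hl : l < D
  · rw [show (P (fun l : Fin D => p.coeff (l : ℕ))).coeff l = p.coeff l from
      P_coeff (fun l : Fin D => p.coeff (l : ℕ)) ⟨l, hl⟩]
  · rw [P_coeff_ge _ _ (by omega), hp l (by omega)]

theorem ev_add {D : ℕ} (b b' : Fin D → 𝓞 K) (m : 𝓞 K) : ev (b + b') m = ev b m + ev b' m := by
  simp only [ev, Pi.add_apply, add_mul, Finset.sum_add_distrib]

theorem dv_add {D : ℕ} (b b' : Fin D → 𝓞 K) (m : 𝓞 K) : dv (b + b') m = dv b m + dv b' m := by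
  simp only [dv, Pi.add_apply, mul_add, add_mul, Finset.sum_add_distrib]

theorem ev_smul {D : ℕ} (c : 𝓞 K) (b : Fin D → 𝓞 K) (m : 𝓞 K) : ev (c • b) m = c * ev b m := by
  simp only [ev, Pi.smul_apply, smul_eq_mul, Finset.mul_sum, mul_assoc]

theorem dv_smul {D : ℕ} (c : 𝓞 K) (b : Fin D → 𝓞 K) (m : 𝓞 K) : dv (c • b) m = c * dv b m := by
  simp only [dv, Pi.smul_apply, smul_eq_mul, Finset.mul_sum]
  apply Finset.sum_congr rfl
  intro i _
  ring

/-- the lattice -/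
def Lam (D : ℕ) (R : Ideal (𝓞 K)) (m : 𝓞 K) : Submodule (𝓞 K) (Fin D → 𝓞 K) where
  carrier := {b | ev b m ∈ R ^ 2 ∧ dv b m ∈ R}
  add_mem' := by
    intro a b ha hb
    exact ⟨by rw [ev_add]; exact Ideal.add_mem _ ha.1 hb.1,
      by rw [dv_add]; exact Ideal.add_mem _ ha.2 hb.2⟩
  zero_mem' := by
    constructor <;> simp [ev, dv]
  smul_mem' := by
    intro c b hb
    exact ⟨by rw [ev_smul]; exact Ideal.mul_mem_left _ _ hb.1,
      by rw [dv_smul]; exact Ideal.mul_mem_left _ _ hb.2⟩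

theorem mem_Lam {D : ℕ} {R : Ideal (𝓞 K)} {m : 𝓞 K} {b : Fin D → 𝓞 K} :
    b ∈ Lam D R m ↔ ev b m ∈ R ^ 2 ∧ dv b m ∈ R := Iff.rfl

/-- the product of two vectors -/
noncomputable def pr {k : ℕ} (u v : Fin k → 𝓞 K) : Fin (2 * k - 1) → 𝓞 K :=
  fun l => (P u * P v).coeff (l : ℕ)

theorem P_pr {k : ℕ} (hk : 2 ≤ k) (u v : Fin k → 𝓞 K) : P (pr u v) = P u * P v := by
  apply P_of
  intro l hl
  rw [coeff_mul]
  apply Finset.sum_eq_zero
  intro x hx
  rw [Finset.HasAntidiagonal.mem_antidiagonal] at hx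
  by_cases h : k ≤ x.1
  · rw [P_coeff_ge u _ h, zero_mul]
  · rw [P_coeff_ge v x.2 (by omega), mul_zero]

theorem pr_mem {k : ℕ} {R : Ideal (𝓞 K)} (hk : 2 ≤ k) (m : 𝓞 K) (u v : Fin k → 𝓞 K)
    (hu : ev u m ∈ R) (hv : ev v m ∈ R) : pr u v ∈ Lam (2 * k - 1) R m := by
  rw [mem_Lam, ← P_eval, ← P_deriv, P_pr hk, derivative_mul, eval_mul, eval_add, eval_mul,
    eval_mul, P_eval, P_eval, sq]
  exact ⟨Ideal.mul_mem_mul hu hv, Ideal.add_mem _ (Ideal.mul_mem_left _ _ hv)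
    (Ideal.mul_mem_right _ _ hu)⟩

theorem pr_le {k n V : ℕ} (hn : 2 * k ≤ n) (C₁ : ℝ) (u v : Fin k → 𝓞 K)
    (hu : ∀ j, Ht (u j) (C₁ * (V : ℝ) ^ (n - 2 * (j : ℕ))))
    (hv : ∀ j, Ht (v j) (C₁ * (V : ℝ) ^ (n - 2 * (j : ℕ)))) (l : Fin (2 * k - 1)) :
    Ht (pr u v l) (2 * k * C₁ ^ 2 * (V : ℝ) ^ (2 * (n - (l : ℕ)))) := by
  intro φ
  have hl := l.2
  rw [pr, coeff_mul]
  have hcast : φ ((∑ x ∈ Finset.HasAntidiagonal.antidiagonal (l : ℕ),
      (P u).coeff x.1 * (P v).coeff x.2 : 𝓞 K) : K) =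
      ∑ x ∈ Finset.HasAntidiagonal.antidiagonal (l : ℕ),
        φ ((P u).coeff x.1 : K) * φ ((P v).coeff x.2 : K) := by
    show φ (algebraMap (𝓞 K) K _) = _
    rw [map_sum, map_sum]
    refine Finset.sum_congr rfl (fun x _ => ?_)
    rw [map_mul, map_mul]
  rw [hcast]
  refine (norm_sum_le _ _).trans ?_
  have hterm : ∀ x ∈ Finset.HasAntidiagonal.antidiagonal (l : ℕ),
      ‖φ ((P u).coeff x.1 : K) * φ ((P v).coeff x.2 : K)‖ ≤
        C₁ ^ 2 * (V : ℝ) ^ (2 * (n - (l : ℕ))) := by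
    intro x hx
    rw [Finset.HasAntidiagonal.mem_antidiagonal] at hx
    have hpos : 0 ≤ C₁ ^ 2 * (V : ℝ) ^ (2 * (n - (l : ℕ))) := by positivity
    by_cases h1 : k ≤ x.1
    · rw [P_coeff_ge u _ h1]
      simpa using hpos
    by_cases h2 : k ≤ x.2
    · rw [P_coeff_ge v _ h2]
      simpa using hpos
    have e1 : (P u).coeff x.1 = u ⟨x.1, by omega⟩ := P_coeff u ⟨x.1, by omega⟩
    have e2 : (P v).coeff x.2 = v ⟨x.2, by omega⟩ := P_coeff v ⟨x.2, by omega⟩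
    rw [e1, e2, norm_mul]
    have hA := hu ⟨x.1, by omega⟩ φ
    have hB := hv ⟨x.2, by omega⟩ φ
    calc _ ≤ (C₁ * (V : ℝ) ^ (n - 2 * x.1)) * (C₁ * (V : ℝ) ^ (n - 2 * x.2)) :=
          mul_le_mul hA hB (norm_nonneg _) ((norm_nonneg _).trans hA)
      _ = C₁ ^ 2 * ((V : ℝ) ^ (n - 2 * x.1) * (V : ℝ) ^ (n - 2 * x.2)) := by ring
      _ = C₁ ^ 2 * (V : ℝ) ^ (2 * (n - (l : ℕ))) := by
          rw [← pow_add]
          congr 2
          omega
  refine (Finset.sum_le_card_nsmul _ _ _ hterm).trans ?_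
  rw [Finset.Nat.card_antidiagonal, nsmul_eq_mul]
  have h1 : (((l : ℕ) + 1 : ℕ) : ℝ) ≤ 2 * k := by
    have : (l : ℕ) + 1 ≤ 2 * k := by omega
    exact_mod_cast this
  calc (((l : ℕ) + 1 : ℕ) : ℝ) * (C₁ ^ 2 * (V : ℝ) ^ (2 * (n - (l : ℕ))))
      ≤ (2 * k) * (C₁ ^ 2 * (V : ℝ) ^ (2 * (n - (l : ℕ)))) :=
        mul_le_mul_of_nonneg_right h1 (by positivity)
    _ = _ := by ring

/-- The products span. -/
theorem pr_span {k : ℕ} (hk : 2 ≤ k) (g : Fin k → Fin k → 𝓞 K)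
    (hg : LinearIndependent K (fun i j => ((g i j : 𝓞 K) : K))) (x : Fin (2 * k - 1) → 𝓞 K) :
    ∃ c : Fin k → Fin k → K, ∀ l, ((x l : 𝓞 K) : K) =
      ∑ i, ∑ j, c i j * ((pr (g i) (g j) l : 𝓞 K) : K) := by
  classical
  set G : Fin k → K[X] := fun a => (P (g a)).map (algebraMap (𝓞 K) K) with hG
  have hspan : Submodule.span K (Set.range (fun i j => ((g i j : 𝓞 K) : K))) = ⊤ :=
    hg.span_eq_top_of_card_eq_finrank' (by simp)
  -- powers of `X` of degree less than `k`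
  have h1 : ∀ i : ℕ, i < k → ∃ α : Fin k → K, (X : K[X]) ^ i = ∑ a, C (α a) * G a := by
    intro i hi
    have hm : (Pi.single (⟨i, hi⟩ : Fin k) (1 : K)) ∈
        Submodule.span K (Set.range (fun i j => ((g i j : 𝓞 K) : K))) := by
      rw [hspan]; trivial
    rw [Submodule.mem_span_range_iff_exists_fun] at hm
    obtain ⟨α, hα⟩ := hm
    refine ⟨α, ?_⟩
    ext l
    rw [finsetSum_coeff]
    simp only [coeff_C_mul, hG, coeff_map, coeff_X_pow]
    by_cases hl : l < k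
    · have h2 := congrFun hα ⟨l, hl⟩
      rw [Finset.sum_apply] at h2
      simp only [Pi.smul_apply, smul_eq_mul] at h2
      have h3 : ∀ a, algebraMap (𝓞 K) K ((P (g a)).coeff l) = ((g a ⟨l, hl⟩ : 𝓞 K) : K) := by
        intro a
        rw [show (P (g a)).coeff l = g a ⟨l, hl⟩ from P_coeff (g a) ⟨l, hl⟩]
      simp only [h3]
      rw [h2, Pi.single_apply]
      simp only [Fin.mk.injEq]
    · rw [if_neg (by omega)]
      symm
      apply Finset.sum_eq_zero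
      intro a _
      rw [P_coeff_ge _ _ (by omega)]
      simp
  have h2 : ∀ l : Fin (2 * k - 1), ∃ β : Fin k → Fin k → K,
      (X : K[X]) ^ (l : ℕ) = ∑ a, ∑ b, C (β a b) * (G a * G b) := by
    intro l
    have hl := l.2
    obtain ⟨α, hα⟩ := h1 (min (l : ℕ) (k - 1)) (by omega)
    obtain ⟨α', hα'⟩ := h1 ((l : ℕ) - min (l : ℕ) (k - 1)) (by omega)
    refine ⟨fun a b => α a * α' b, ?_⟩
    have h3 : (l : ℕ) = min (l : ℕ) (k - 1) + ((l : ℕ) - min (l : ℕ) (k - 1)) := by omega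
    rw [h3, pow_add, hα, hα', Finset.sum_mul_sum]
    apply Finset.sum_congr rfl
    intro a _
    apply Finset.sum_congr rfl
    intro b _
    rw [C_mul]
    ring
  choose β hβ using h2
  refine ⟨fun a b => ∑ l, (x l : K) * β l a b, fun l' => ?_⟩
  have h3 : ∀ l : Fin (2 * k - 1), ((X : K[X]) ^ (l : ℕ)).coeff (l' : ℕ) =
      ∑ a, ∑ b, β l a b * ((pr (g a) (g b) l' : 𝓞 K) : K) := by
    intro l
    rw [hβ l, finsetSum_coeff]
    apply Finset.sum_congr rfl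
    intro a _
    rw [finsetSum_coeff]
    apply Finset.sum_congr rfl
    intro b _
    rw [coeff_C_mul]
    congr 1
    simp only [hG]
    rw [← Polynomial.map_mul, coeff_map, pr]
  have h4 : ((x l' : 𝓞 K) : K) = ∑ l, (x l : K) * ((X : K[X]) ^ (l : ℕ)).coeff (l' : ℕ) := by
    rw [Finset.sum_eq_single l']
    · simp
    · intro l _ hl
      rw [coeff_X_pow, if_neg (fun h => hl (Fin.ext h.symm)), mul_zero]
    · simp
  rw [h4]
  simp only [h3]
  simp only [Finset.mul_sum, Finset.sum_mul]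
  rw [Finset.sum_comm]
  apply Finset.sum_congr rfl
  intro a _
  rw [Finset.sum_comm]
  apply Finset.sum_congr rfl
  intro b _
  apply Finset.sum_congr rfl
  intro l _
  ring

/-- Every vector is congruent to a small one. -/
theorem reduce {k n V : ℕ} {R : Ideal (𝓞 K)} {C₁ H : ℝ} {m : 𝓞 K} (hk : 2 ≤ k) (hn : 2 * k ≤ n)
    (hH : 0 < H) (hapx : ∀ x : K, ∃ y : 𝓞 K, ∀ φ : K →+* ℂ, ‖φ (x - (y : K))‖ ≤ H)
    (hS : Short k n V R C₁ m) (x : Fin (2 * k - 1) → 𝓞 K) :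
    ∃ y : Fin (2 * k - 1) → 𝓞 K, y - x ∈ Lam (2 * k - 1) R m ∧
      ∀ l, Ht (y l) (2 * k ^ 3 * H * C₁ ^ 2 * (V : ℝ) ^ (2 * (n - (l : ℕ)))) := by
  obtain ⟨g, hg, hgr, hgb⟩ := hS
  obtain ⟨c, hc⟩ := pr_span hk g hg x
  choose y hy using fun i j => hapx (c i j)
  refine ⟨x - ∑ i, ∑ j, y i j • pr (g i) (g j), ?_, ?_⟩
  · rw [sub_sub_cancel_left]
    apply Submodule.neg_mem
    apply Submodule.sum_mem
    intro i _
    apply Submodule.sum_mem
    intro j _
    apply Submodule.smul_mem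
    exact pr_mem hk m _ _ (hgr i) (hgr j)
  · intro l φ
    have h1 : (((x - ∑ i, ∑ j, y i j • pr (g i) (g j)) l : 𝓞 K) : K) =
        ∑ i, ∑ j, (c i j - (y i j : K)) * ((pr (g i) (g j) l : 𝓞 K) : K) := by
      rw [Pi.sub_apply, Finset.sum_apply]
      show algebraMap (𝓞 K) K _ = _
      rw [map_sub, map_sum]
      have hc' := hc l
      rw [show algebraMap (𝓞 K) K (x l) = ((x l : 𝓞 K) : K) from rfl, hc',
        ← Finset.sum_sub_distrib]
      apply Finset.sum_congr rfl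
      intro i _
      rw [Finset.sum_apply, map_sum, ← Finset.sum_sub_distrib]
      apply Finset.sum_congr rfl
      intro j _
      rw [Pi.smul_apply, smul_eq_mul, map_mul, sub_mul]
    rw [h1, map_sum]
    have h3 : ∀ i j, ‖φ ((c i j - (y i j : K)) * ((pr (g i) (g j) l : 𝓞 K) : K))‖ ≤
        H * (2 * k * C₁ ^ 2 * (V : ℝ) ^ (2 * (n - (l : ℕ)))) := by
      intro i j
      rw [map_mul, norm_mul]
      exact mul_le_mul (hy i j φ) (pr_le hn C₁ (g i) (g j) (hgb i) (hgb j) l φ) (norm_nonneg _)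
        hH.le
    calc ‖∑ i, φ (∑ j, (c i j - (y i j : K)) * ((pr (g i) (g j) l : 𝓞 K) : K))‖
        ≤ ∑ i, ‖φ (∑ j, (c i j - (y i j : K)) * ((pr (g i) (g j) l : 𝓞 K) : K))‖ :=
          norm_sum_le _ _
      _ ≤ ∑ _i : Fin k, ∑ _j : Fin k, H * (2 * k * C₁ ^ 2 * (V : ℝ) ^ (2 * (n - (l : ℕ)))) := by
          apply Finset.sum_le_sum
          intro i _
          rw [map_sum]
          refine (norm_sum_le _ _).trans ?_
          apply Finset.sum_le_sum
          intro j _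
          exact h3 i j
      _ = 2 * k ^ 3 * H * C₁ ^ 2 * (V : ℝ) ^ (2 * (n - (l : ℕ))) := by
          simp only [Finset.sum_const, Finset.card_univ, Fintype.card_fin, nsmul_eq_mul]
          ring

theorem sum_e (n : ℕ) : ∀ D : ℕ, D ≤ n →
    ∑ j ∈ Finset.range D, 2 * (n - j) = D * (2 * n + 1 - D) := by
  intro D
  induction D with
  | zero => intro _; simp
  | succ D ih =>
    intro h
    rw [Finset.sum_range_succ, ih (by omega)]
    obtain ⟨d, rfl⟩ := Nat.exists_eq_add_of_le h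
    have h1 : 2 * (D + 1 + d) + 1 - D = D + 2 * d + 3 := by omega
    have h2 : D + 1 + d - D = d + 1 := by omega
    have h3 : 2 * (D + 1 + d) + 1 - (D + 1) = D + 2 * d + 2 := by omega
    rw [h1, h2, h3]
    ring

theorem prod_e (k n V : ℕ) (hk : 2 ≤ k) (h : 2 * k ≤ n) :
    ∏ j : Fin (2 * k - 1), V ^ (2 * (n - (j : ℕ))) = V ^ ((4 * k - 2) * (n + 1 - k)) := by
  rw [Finset.prod_pow_eq_pow_sum, Fin.sum_univ_eq_sum_range (fun j => 2 * (n - j)) (2 * k - 1),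
    sum_e n _ (by omega)]
  congr 1
  obtain ⟨d, rfl⟩ := Nat.exists_eq_add_of_le h
  obtain ⟨k', rfl⟩ := Nat.exists_eq_add_of_le hk
  have h1 : 2 * (2 + k') - 1 = 2 * k' + 3 := by omega
  have h2 : 2 * (2 * (2 + k') + d) + 1 - (2 * k' + 3) = 2 * k' + 2 * d + 6 := by omega
  have h3 : 4 * (2 + k') - 2 = 4 * k' + 6 := by omega
  have h4 : 2 * (2 + k') + d + 1 - (2 + k') = k' + d + 3 := by omega
  rw [h1, h2, h3, h4]
  ring

/-- the box -/
theorem exists_box {d : ℕ} {c₀ : ℝ} (hc₀ : 0 < c₀)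
    (hcnt : ∀ B : ℝ, 1 ≤ B → ∃ S : Finset (𝓞 K), (∀ a, a ∈ S ↔ Ht a B) ∧
      c₀ * B ^ d ≤ (S.card : ℝ)) (k n V : ℕ) (hV : 1 ≤ V) (hk : 2 ≤ k) (h : 2 * k ≤ n) :
    ∃ S : Finset (Fin (2 * k - 1) → 𝓞 K),
      (∀ b ∈ S, ∀ j, Ht (b j) ((V : ℝ) ^ (2 * (n - (j : ℕ))))) ∧
      c₀ ^ (2 * k - 1) * (V : ℝ) ^ (d * ((4 * k - 2) * (n + 1 - k))) ≤ (S.card : ℝ) := by
  classical
  have hV' : (1 : ℝ) ≤ V := by exact_mod_cast hV
  choose S hS1 hS2 using fun j : Fin (2 * k - 1) =>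
    hcnt ((V : ℝ) ^ (2 * (n - (j : ℕ)))) (one_le_pow₀ hV')
  refine ⟨Fintype.piFinset S, fun b hb j => (hS1 j _).1 (Fintype.mem_piFinset.1 hb j), ?_⟩
  rw [Fintype.card_piFinset]
  push_cast
  calc c₀ ^ (2 * k - 1) * (V : ℝ) ^ (d * ((4 * k - 2) * (n + 1 - k))) =
      ∏ j : Fin (2 * k - 1), (c₀ * ((V : ℝ) ^ (2 * (n - (j : ℕ)))) ^ d) := by
        rw [Finset.prod_mul_distrib, Finset.prod_const, Finset.card_univ, Fintype.card_fin,
          Finset.prod_pow]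
        congr 1
        have := prod_e k n V hk h
        have h2 : ∏ j : Fin (2 * k - 1), (V : ℝ) ^ (2 * (n - (j : ℕ))) =
            (V : ℝ) ^ ((4 * k - 2) * (n + 1 - k)) := by exact_mod_cast this
        rw [h2, ← pow_mul, mul_comm]
    _ ≤ ∏ j : Fin (2 * k - 1), ((S j).card : ℝ) :=
      Finset.prod_le_prod (fun j _ => by positivity) (fun j _ => hS2 j)

theorem t_CO : S_CNT → S_APX → S_CO := by
  classical
  intro hCNT hAPX K _ _ n k hk hn C₁ hC₁
  obtain ⟨c₀, C₀, hc₀, hC₀, hcnt⟩ := hCNT K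
  obtain ⟨H, hH, hapx⟩ := hAPX K
  set d := Module.finrank ℚ K with hd
  refine ⟨2 * k ^ 3 * H * C₁ ^ 2 + 1, c₀ ^ (2 * k - 1) / 64, by positivity, by positivity, ?_⟩
  intro V R m hV hr hrV hS s t
  set r := Ideal.absNorm R with hr_def
  have hr0 : 0 < r := hr.pos
  have hR0 : R ≠ ⊥ := by
    intro h
    rw [hr_def, h, Ideal.absNorm_bot] at hr0
    exact lt_irrefl _ hr0
  have hR20 : R ^ 2 ≠ ⊥ := pow_ne_zero 2 hR0
  have : Finite (𝓞 K ⧸ R) := Ideal.finiteQuotientOfFreeOfNeBot R hR0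
  have : Finite (𝓞 K ⧸ R ^ 2) := Ideal.finiteQuotientOfFreeOfNeBot _ hR20
  have : Fintype (𝓞 K ⧸ R) := Fintype.ofFinite _
  have : Fintype (𝓞 K ⧸ R ^ 2) := Fintype.ofFinite _
  have hcR : Fintype.card (𝓞 K ⧸ R) = r := by
    rw [← Nat.card_eq_fintype_card, hr_def, Ideal.absNorm_apply]
    rfl
  have hcR2 : Fintype.card (𝓞 K ⧸ R ^ 2) = r ^ 2 := by
    rw [← Nat.card_eq_fintype_card, hr_def, ← map_pow, Ideal.absNorm_apply]
    rfl
  obtain ⟨box, hbox1, hbox2⟩ := exists_box (d := d) hc₀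
    (fun B hB => by
      obtain ⟨S, h1, h2, h3⟩ := hcnt B hB
      exact ⟨S, h1, h2⟩) k n V hV hk hn
  set φ : (Fin (2 * k - 1) → 𝓞 K) → (𝓞 K ⧸ R ^ 2) × (𝓞 K ⧸ R) :=
    fun b => (Ideal.Quotient.mk (R ^ 2) (ev b m), Ideal.Quotient.mk R (dv b m)) with hφ
  have hex : ∃ c : (𝓞 K ⧸ R ^ 2) × (𝓞 K ⧸ R), box.card ≤
      r ^ 3 * (box.filter (fun b => φ b = c)).card := by
    by_contra hcon
    push Not at hcon
    have hsum : box.card =
        ∑ c : (𝓞 K ⧸ R ^ 2) × (𝓞 K ⧸ R), (box.filter (fun b => φ b = c)).card :=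
      Finset.card_eq_sum_card_fiberwise (fun x _ => Finset.mem_coe.2 (Finset.mem_univ _))
    have hlt : ∑ c : (𝓞 K ⧸ R ^ 2) × (𝓞 K ⧸ R), r ^ 3 * (box.filter
        (fun b => φ b = c)).card < ∑ _c : (𝓞 K ⧸ R ^ 2) × (𝓞 K ⧸ R), box.card := by
      apply Finset.sum_lt_sum_of_nonempty
      · exact ⟨0, Finset.mem_univ _⟩
      · intro c _
        exact hcon c
    rw [← Finset.mul_sum, ← hsum, Finset.sum_const, Finset.card_univ, Fintype.card_prod,
      hcR, hcR2, smul_eq_mul, ← pow_succ] at hlt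
    exact lt_irrefl _ hlt
  obtain ⟨c, hc⟩ := hex
  set F := box.filter (fun b => φ b = c) with hF
  have hV0 : (0 : ℝ) < V := by exact_mod_cast hV
  have hFc : c₀ ^ (2 * k - 1) / 64 * (V : ℝ) ^ (d * ((k - 2) * (n + 1 - k))) ≤ (F.card : ℝ) := by
    have h1 : c₀ ^ (2 * k - 1) * (V : ℝ) ^ (d * ((4 * k - 2) * (n + 1 - k))) ≤
        (r : ℝ) ^ 3 * F.card := hbox2.trans (by exact_mod_cast hc)
    have h2 : (r : ℝ) ^ 3 ≤ 64 * (V : ℝ) ^ (d * (3 * k * (n + 1 - k))) := by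
      calc (r : ℝ) ^ 3 ≤ (4 * (V : ℝ) ^ (d * (k * (n + 1 - k)))) ^ 3 :=
            pow_le_pow_left₀ (by positivity) (by exact_mod_cast hrV) 3
        _ = 64 * (V : ℝ) ^ (d * (3 * k * (n + 1 - k))) := by
            rw [mul_pow, ← pow_mul]
            norm_num
            congr 1
            ring
    have h3 : (V : ℝ) ^ (d * ((4 * k - 2) * (n + 1 - k))) =
        (V : ℝ) ^ (d * ((k - 2) * (n + 1 - k))) * (V : ℝ) ^ (d * (3 * k * (n + 1 - k))) := by
      rw [← pow_add, ← mul_add, ← add_mul]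
      congr 3
      omega
    rw [h3] at h1
    have h4 : 0 < (V : ℝ) ^ (d * (3 * k * (n + 1 - k))) := by positivity
    have h5 : (c₀ ^ (2 * k - 1) / 64 * (V : ℝ) ^ (d * ((k - 2) * (n + 1 - k)))) *
        (64 * (V : ℝ) ^ (d * (3 * k * (n + 1 - k)))) ≤
        F.card * (64 * (V : ℝ) ^ (d * (3 * k * (n + 1 - k)))) := by
      calc _ = c₀ ^ (2 * k - 1) * ((V : ℝ) ^ (d * ((k - 2) * (n + 1 - k))) *
            (V : ℝ) ^ (d * (3 * k * (n + 1 - k)))) := by ring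
        _ ≤ _ := h1
        _ ≤ (64 * (V : ℝ) ^ (d * (3 * k * (n + 1 - k)))) * F.card :=
          mul_le_mul_of_nonneg_right h2 (by positivity)
        _ = _ := by ring
    exact le_of_mul_le_mul_right h5 (by positivity)
  have hne : F.Nonempty := by
    rw [← Finset.card_pos]
    have h6 : (0 : ℝ) < c₀ ^ (2 * k - 1) / 64 * (V : ℝ) ^ (d * ((k - 2) * (n + 1 - k))) := by
      positivity
    have h7 : (0 : ℝ) < F.card := lt_of_lt_of_le h6 hFc
    exact_mod_cast h7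
  obtain ⟨b0, hb0⟩ := hne
  -- a vector with the right values
  set x0 : Fin (2 * k - 1) → 𝓞 K := fun i => if (i : ℕ) = 0 then s - t * m else
    if (i : ℕ) = 1 then t else 0 with hx0
  have hPx : P x0 = C (s - t * m) + C t * X := by
    ext l
    by_cases hl : l < 2 * k - 1
    · rw [show (P x0).coeff l = x0 ⟨l, hl⟩ from P_coeff x0 ⟨l, hl⟩, hx0]
      simp only [coeff_add, coeff_C, coeff_C_mul, coeff_X]
      rcases l with _ | _ | l
      · simp
      · simp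
      · simp
    · rw [P_coeff_ge _ _ (by omega)]
      simp only [coeff_add, coeff_C, coeff_C_mul, coeff_X]
      rw [if_neg (by omega), if_neg (by omega)]
      simp
  have hevx : ev x0 m = s := by
    rw [← P_eval, hPx]
    simp
  have hdvx : dv x0 m = t := by
    rw [← P_deriv, hPx]
    simp
  obtain ⟨y, hy1, hy2⟩ := reduce hk hn hH hapx hS (x0 - b0)
  refine ⟨F.image (fun b => y + b), ?_, ?_⟩
  · rw [Finset.card_image_of_injective _ (add_right_injective y)]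
    exact hFc
  · intro b hb
    rw [Finset.mem_image] at hb
    obtain ⟨b', hb', rfl⟩ := hb
    rw [hF, Finset.mem_filter] at hb' hb0
    refine ⟨?_, ?_⟩
    · intro i ψ
      have h2 : ‖ψ (b' i : K)‖ ≤ (V : ℝ) ^ (2 * (n - (i : ℕ))) := hbox1 _ hb'.1 i ψ
      have h3 : ψ (((y + b') i : 𝓞 K) : K) = ψ (y i : K) + ψ (b' i : K) := by
        rw [Pi.add_apply, ← map_add]
        rfl
      rw [h3, add_mul, one_mul]
      exact (norm_add_le _ _).trans (add_le_add (hy2 i ψ) h2)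
    · have hφeq : φ b' = φ b0 := by rw [hb'.2, hb0.2]
      have h1 : ev b' m - ev b0 m ∈ R ^ 2 := by
        have := congrArg Prod.fst hφeq
        simp only [hφ] at this
        exact Ideal.Quotient.eq.1 this
      have h2 : dv b' m - dv b0 m ∈ R := by
        have := congrArg Prod.snd hφeq
        simp only [hφ] at this
        exact Ideal.Quotient.eq.1 this
      have hy3 := mem_Lam.1 hy1
      have hsum1 : ev (y + b') m - s = ev (y - (x0 - b0)) m + (ev b' m - ev b0 m) := by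
        have h3 : y + b' = (y - (x0 - b0)) + (x0 + (b' + (-1 : 𝓞 K) • b0)) := by
          simp only [neg_smul, one_smul]
          abel
        rw [h3, ev_add, ev_add, ev_add, ev_smul, hevx]
        ring
      have hsum2 : dv (y + b') m - t = dv (y - (x0 - b0)) m + (dv b' m - dv b0 m) := by
        have h3 : y + b' = (y - (x0 - b0)) + (x0 + (b' + (-1 : 𝓞 K) • b0)) := by
          simp only [neg_smul, one_smul]
          abel
        rw [h3, dv_add, dv_add, dv_add, dv_smul, hdvx]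
        ring
      rw [hsum1, hsum2]
      exact ⟨Ideal.add_mem _ hy3.1 h1, Ideal.add_mem _ hy3.2 h2⟩

end Pool.Agent.D0H25.SFK.CO
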