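import Pool.Agent.D0H25.SFK.CO
import Pool.Agent.D0H15.SK.Basic

/-!
# Project SFK, module FAM, part b: a polynomial belongs to few pairs `(R, m)`
(adapted from `Pool.Agent.D0H87.SF.FAMb`)
-/

set_option autoImplicit false
set_option linter.unusedSectionVars false

open Polynomial NumberField

namespace Pool.Agent.D0H25.SFK.FAM

open Pool.Agent.D0H15.SK

variable {K : Type} [Field K] [NumberField K]

/-- an integer in an ideal of prime norm -/
theorem nat_mem_iff {R : Ideal (𝓞 K)} (hR : (Ideal.absNorm R).Prime) (m : ℤ) :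
    (m : 𝓞 K) ∈ R ↔ (Ideal.absNorm R : ℤ) ∣ m := by
  have hrR : ((Ideal.absNorm R : ℕ) : 𝓞 K) ∈ R := Ideal.absNorm_mem R
  constructor
  · intro hm
    by_contra hcon
    have hcop : IsCoprime (Ideal.absNorm R : ℤ) m :=
      (Prime.coprime_iff_not_dvd (Nat.prime_iff_prime_int.1 hR)).2 hcon
    obtain ⟨u, v, huv⟩ := hcop
    have h1 : (u : 𝓞 K) * (Ideal.absNorm R : ℕ) + v * m = 1 := by
      exact_mod_cast congrArg (Int.cast : ℤ → 𝓞 K) huv
    have h2 : (1 : 𝓞 K) ∈ R := by
      rw [← h1]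
      exact Ideal.add_mem _ (Ideal.mul_mem_left _ _ hrR) (Ideal.mul_mem_left _ _ hm)
    have h3 : R = ⊤ := (Ideal.eq_top_iff_one R).2 h2
    rw [h3, Ideal.absNorm_top] at hR
    exact Nat.not_prime_one hR
  · rintro ⟨c, rfl⟩
    push_cast
    exact Ideal.mul_mem_right _ _ hrR

/-- A monic polynomial of degree `n` has at most `n` roots modulo a prime. -/
theorem roots_le {n : ℕ} {R : Ideal (𝓞 K)} (hR : (Ideal.absNorm R).Prime) (f : (𝓞 K)[X])
    (hf : f.Monic) (hd : f.natDegree = n)
    (S : Finset ℕ) (hS : ∀ m ∈ S, m < Ideal.absNorm R ∧ f.eval (m : 𝓞 K) ∈ R) :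
    S.card ≤ n := by
  classical
  have : R.IsPrime := Ideal.isPrime_of_irreducible_absNorm
    ((Nat.irreducible_iff_nat_prime _).2 hR)
  set P : (𝓞 K ⧸ R)[X] := f.map (Ideal.Quotient.mk R) with hP
  have hPm : P.Monic := hf.map _
  have hPd : P.natDegree = n := by rw [hP, hf.natDegree_map, hd]
  calc S.card ≤ P.roots.toFinset.card := by
        apply Finset.card_le_card_of_injOn (fun m : ℕ => Ideal.Quotient.mk R (m : 𝓞 K))
        · intro m hm
          rw [Finset.mem_coe] at hm
          rw [Finset.mem_coe, Multiset.mem_toFinset, mem_roots hPm.ne_zero, IsRoot.def, hP]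
          show eval (Ideal.Quotient.mk R (m : 𝓞 K)) (map (Ideal.Quotient.mk R) f) = 0
          rw [eval_map_apply, Ideal.Quotient.eq_zero_iff_mem]
          exact (hS m hm).2
        · intro a ha b hb hab
          rw [Finset.mem_coe] at ha hb
          have h1 := Ideal.Quotient.eq.1 hab
          have h2 : (((a : ℤ) - (b : ℤ) : ℤ) : 𝓞 K) ∈ R := by
            push_cast
            exact h1
          rw [nat_mem_iff hR] at h2
          have h3 := (hS a ha).1
          have h4 := (hS b hb).1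
          have h5 : ((a : ℤ) - b) = 0 := by
            apply Int.eq_zero_of_abs_lt_dvd h2
            rw [abs_lt]
            constructor <;> omega
          omega
    _ ≤ P.roots.card := Multiset.toFinset_card_le _
    _ ≤ P.natDegree := card_roots' P
    _ = n := hPd

/-- the absolute value of an embedding -/
noncomputable def av (φ : K →+* ℂ) : AbsoluteValue (𝓞 K) ℝ :=
  (place φ).comp (f := algebraMap (𝓞 K) K) RingOfIntegers.coe_injective

theorem av_apply (φ : K →+* ℂ) (a : 𝓞 K) : av φ a = ‖φ (a : K)‖ := rfl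

/-- The resultant of the polynomial and its derivative. -/
theorem exists_disc {n : ℕ} (hn : 2 ≤ n) (a : Fin (n - 1) → 𝓞 K) (hirr : Irreducible (polK n a))
    (Y : ℝ) (hY : 1 ≤ Y) (ha : ∀ i, Ht (a i) Y) :
    ∃ Δ : 𝓞 K, Δ ≠ 0 ∧ Ht Δ ((2 * n - 1).factorial * (n * Y) ^ (2 * n - 1)) ∧
      ∃ p q : (𝓞 K)[X], pol n a * p + derivative (pol n a) * q = C Δ := by
  have hmon := pol_monic n hn a
  have hdeg := pol_natDegree n hn a
  have hddeg : (derivative (pol n a)).natDegree = n - 1 := by
    have h0 : 0 < (pol n a).degree := natDegree_pos_iff_degree_pos.1 (by omega)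
    rw [natDegree, degree_derivative (natDegree_pos_iff_degree_pos.2 h0).ne', hdeg]
    rfl
  refine ⟨resultant (pol n a) (derivative (pol n a)) n (n - 1), ?_, ?_, ?_⟩
  · intro h0
    have h1 : resultant (polK n a) (derivative (polK n a)) ≠ 0 :=
      resultant_ne_zero _ _ hirr.separable
    apply h1
    have h2 : (polK n a).natDegree = n := polK_natDegree n hn a
    have h3 : derivative (polK n a) = (derivative (pol n a)).map (algebraMap (𝓞 K) K) := by
      rw [polK, derivative_map]
    have h4 : (derivative (polK n a)).natDegree = n - 1 := by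
      rw [h3, natDegree_map_eq_of_injective RingOfIntegers.coe_injective, hddeg]
    rw [h2, h4, h3, polK, resultant_map_map, h0, map_zero]
  · intro φ
    rw [← av_apply]
    have hcoef : ∀ l, av φ ((pol n a).coeff l) ≤ Y := by
      intro l
      have h1 : pol n a = X ^ n + CO.P a := rfl
      rw [h1, coeff_add, coeff_X_pow]
      by_cases hl : l < n - 1
      · rw [if_neg (by omega), zero_add,
          show (CO.P a).coeff l = a ⟨l, hl⟩ from CO.P_coeff a ⟨l, hl⟩]
        exact ha _ φ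
      · rw [CO.P_coeff_ge a l (by omega), add_zero]
        split_ifs
        · rw [map_one]
          exact hY
        · rw [map_zero]
          linarith
    have hY0 : 0 ≤ Y := by linarith
    have hn1 : (1 : ℝ) ≤ n := by exact_mod_cast (by omega : 1 ≤ n)
    have hnY : Y ≤ (n : ℝ) * Y := le_mul_of_one_le_left hY0 hn1
    have hdcoef : ∀ l, av φ ((derivative (pol n a)).coeff l) ≤ (n : ℝ) * Y := by
      intro l
      by_cases hl : l ≤ n - 1
      · rw [coeff_derivative, map_mul, mul_comm]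
        apply mul_le_mul _ (hcoef _) ((av φ).nonneg _) (by linarith)
        have h2 : av φ ((l : 𝓞 K) + 1) = ((l + 1 : ℕ) : ℝ) := by
          rw [av_apply]
          have h3 : (((l : 𝓞 K) + 1 : 𝓞 K) : K) = ((l + 1 : ℕ) : K) := by
            show algebraMap (𝓞 K) K _ = _
            rw [map_add, map_natCast, map_one]
            push_cast
            rfl
          rw [h3, map_natCast, Complex.norm_natCast]
        rw [h2]
        have : l + 1 ≤ n := by omega
        exact_mod_cast this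
      · rw [coeff_eq_zero_of_natDegree_lt (by rw [hddeg]; omega), map_zero]
        positivity
    have hentry : ∀ i j, av φ
        (sylvester (pol n a) (derivative (pol n a)) n (n - 1) i j) ≤ (n : ℝ) * Y := by
      intro i j
      induction j using Fin.addCases with
      | left j =>
        simp only [sylvester, Matrix.of_apply, Fin.addCases_left]
        split_ifs
        · exact hdcoef _
        · rw [map_zero]; positivity
      | right j =>
        simp only [sylvester, Matrix.of_apply, Fin.addCases_right]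
        split_ifs
        · exact (hcoef _).trans hnY
        · rw [map_zero]; positivity
    have := Matrix.det_le (abv := av φ) hentry
    rw [Fintype.card_fin, nsmul_eq_mul] at this
    have h5 : n + (n - 1) = 2 * n - 1 := by omega
    rw [resultant, ← h5]
    exact this
  · obtain ⟨p, q, _, _, h⟩ := exists_mul_add_mul_eq_C_resultant (m := n) (n := n - 1) (pol n a)
      (derivative (pol n a)) hdeg.le hddeg.le (Or.inl (by omega))
    exact ⟨p, q, h⟩

/-- the norm is at most the product of the bounds of the conjugates -/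
theorem absNorm_le {Δ : 𝓞 K} {B : ℝ} (_hB : 0 ≤ B) (h : Ht Δ B) :
    (Ideal.absNorm (Ideal.span {Δ}) : ℝ) ≤ B ^ Module.finrank ℚ K := by
  rw [Ideal.absNorm_span_singleton]
  have h1 : ((Algebra.norm ℤ Δ : ℤ) : ℚ) = Algebra.norm ℚ (Δ : K) :=
    Algebra.coe_norm_int Δ
  have h2 : ((Algebra.norm ℚ (Δ : K) : ℚ) : ℂ) = ∏ σ : K →ₐ[ℚ] ℂ, σ (Δ : K) :=
    Algebra.norm_eq_prod_embeddings ℚ ℂ (Δ : K)
  have h3 : (((Algebra.norm ℤ Δ).natAbs : ℕ) : ℝ) = ‖((Algebra.norm ℚ (Δ : K) : ℚ) : ℂ)‖ := by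
    rw [← h1]
    push_cast
    rw [Complex.norm_intCast, Nat.cast_natAbs]
    push_cast
    rfl
  rw [h3, h2, norm_prod]
  calc ∏ σ : K →ₐ[ℚ] ℂ, ‖σ (Δ : K)‖ ≤ ∏ _σ : K →ₐ[ℚ] ℂ, B :=
        Finset.prod_le_prod (fun _ _ => norm_nonneg _) (fun σ _ => h σ.toRingHom)
    _ = B ^ Module.finrank ℚ K := by
        rw [Finset.prod_const, Finset.card_univ, AlgHom.card]

theorem mult {n : ℕ} (hn : 4 ≤ n) (C₀ : ℝ) (hC₀ : 0 < C₀) : ∃ V₁ : ℕ, ∀ V : ℕ, V₁ ≤ V →
    ∀ a : Fin (n - 1) → 𝓞 K, Irreducible (polK n a) →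
    (∀ i, Ht (a i) (C₀ * (V : ℝ) ^ (2 * (n - (i : ℕ))))) →
    ∀ S : Finset (Ideal (𝓞 K) × ℕ), (∀ x ∈ S, (Ideal.absNorm x.1).Prime ∧
      V < Ideal.absNorm x.1 ∧ x.2 < Ideal.absNorm x.1 ∧
      (pol n a).eval (x.2 : 𝓞 K) ∈ x.1 ∧ (derivative (pol n a)).eval (x.2 : 𝓞 K) ∈ x.1) →
    S.card ≤ 4 * n ^ 3 * Module.finrank ℚ K := by
  classical
  set d := Module.finrank ℚ K with hd
  refine ⟨⌈C₀⌉₊ * n + (2 * n - 1).factorial + 2, ?_⟩
  intro V hV a hirr ha S hS
  have hV2 : 2 ≤ V := by omega
  have hVK : ⌈C₀⌉₊ * n ≤ V := by omega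
  have hVf : (2 * n - 1).factorial ≤ V := by omega
  have hK1 : 1 ≤ ⌈C₀⌉₊ := Nat.one_le_ceil_iff.2 hC₀
  obtain ⟨Δ, hΔ0, hΔb, p, q, hpq⟩ := exists_disc (by omega) a hirr
    ((⌈C₀⌉₊ * V ^ (2 * n) : ℕ) : ℝ) (by
      have : 0 < ⌈C₀⌉₊ * V ^ (2 * n) := by positivity
      exact_mod_cast this) (by
      intro i φ
      refine (ha i φ).trans ?_
      push_cast
      apply mul_le_mul (Nat.le_ceil C₀) _ (by positivity) (by positivity)
      apply pow_le_pow_right₀
      · exact_mod_cast (by omega : 1 ≤ V)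
      · omega)
  -- the number of the primes
  have hdvd : ∀ x ∈ S, Δ ∈ x.1 := by
    intro x hx
    obtain ⟨_, _, _, h1, h2⟩ := hS x hx
    have h3 := congrArg (fun f : (𝓞 K)[X] => f.eval (x.2 : 𝓞 K)) hpq
    simp only [eval_add, eval_mul, eval_C] at h3
    rw [← h3]
    exact Ideal.add_mem _ (Ideal.mul_mem_right _ _ h1) (Ideal.mul_mem_right _ _ h2)
  have hprod : ∏ R ∈ S.image Prod.fst, R ∣ Ideal.span {Δ} := by
    apply Finset.prod_primes_dvd
    · intro R hR
      rw [Finset.mem_image] at hR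
      obtain ⟨x, hx, rfl⟩ := hR
      have h1 := (hS x hx).1
      have h2 : x.1 ≠ ⊥ := by
        intro h
        rw [h, Ideal.absNorm_bot] at h1
        exact Nat.not_prime_zero h1
      exact Ideal.prime_of_isPrime h2 (Ideal.isPrime_of_irreducible_absNorm
        ((Nat.irreducible_iff_nat_prime _).2 h1))
    · intro R hR
      rw [Finset.mem_image] at hR
      obtain ⟨x, hx, rfl⟩ := hR
      rw [Ideal.dvd_span_singleton]
      exact hdvd x hx
  have hle : ∏ R ∈ S.image Prod.fst, Ideal.absNorm R ≤ Ideal.absNorm (Ideal.span {Δ}) := by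
    rw [← map_prod]
    refine Nat.le_of_dvd (Nat.pos_of_ne_zero ?_) (map_dvd Ideal.absNorm hprod)
    rw [Ne, Ideal.absNorm_eq_zero_iff, Ideal.span_singleton_eq_bot]
    exact hΔ0
  have hge : V ^ (S.image Prod.fst).card ≤ ∏ R ∈ S.image Prod.fst, Ideal.absNorm R := by
    rw [← Finset.prod_const]
    apply Finset.prod_le_prod'
    intro R hR
    rw [Finset.mem_image] at hR
    obtain ⟨x, hx, rfl⟩ := hR
    exact (hS x hx).2.1.le
  have hΔV : Ideal.absNorm (Ideal.span {Δ}) ≤ V ^ (4 * n ^ 2 * d) := by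
    have h2 := absNorm_le (by positivity) hΔb
    rw [← hd] at h2
    have h3 : (2 * n - 1).factorial * (n * (⌈C₀⌉₊ * V ^ (2 * n))) ^ (2 * n - 1) ≤
        V ^ (4 * n ^ 2) := by
      calc (2 * n - 1).factorial * (n * (⌈C₀⌉₊ * V ^ (2 * n))) ^ (2 * n - 1)
        _ ≤ V * (V ^ (2 * n + 1)) ^ (2 * n - 1) := by
            apply Nat.mul_le_mul hVf
            apply Nat.pow_le_pow_left
            calc n * (⌈C₀⌉₊ * V ^ (2 * n)) = (⌈C₀⌉₊ * n) * V ^ (2 * n) := by ring
              _ ≤ V * V ^ (2 * n) := Nat.mul_le_mul_right _ hVK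
              _ = V ^ (2 * n + 1) := by ring
        _ = V ^ (1 + (2 * n + 1) * (2 * n - 1)) := by rw [← pow_mul, pow_add, pow_one]
        _ = V ^ (4 * n ^ 2) := by
            congr 1
            obtain ⟨d, rfl⟩ := Nat.exists_eq_add_of_le hn
            have : 2 * (4 + d) - 1 = 2 * d + 7 := by omega
            rw [this]
            ring
    have h4 : (Ideal.absNorm (Ideal.span {Δ}) : ℝ) ≤
        ((((2 * n - 1).factorial * (n * (⌈C₀⌉₊ * V ^ (2 * n))) ^ (2 * n - 1)) ^ d : ℕ) : ℝ) := by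
      refine h2.trans (le_of_eq ?_)
      push_cast
      ring
    have h5 : Ideal.absNorm (Ideal.span {Δ}) ≤
        ((2 * n - 1).factorial * (n * (⌈C₀⌉₊ * V ^ (2 * n))) ^ (2 * n - 1)) ^ d := by
      exact_mod_cast h4
    calc _ ≤ _ := h5
      _ ≤ (V ^ (4 * n ^ 2)) ^ d := Nat.pow_le_pow_left h3 _
      _ = V ^ (4 * n ^ 2 * d) := by rw [← pow_mul]
  have hcard1 : (S.image Prod.fst).card ≤ 4 * n ^ 2 * d := by
    have := (hge.trans hle).trans hΔV
    exact (Nat.pow_le_pow_iff_right (by omega)).1 this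
  have hcard2 : S.card ≤ n * (S.image Prod.fst).card := by
    apply Finset.card_le_mul_card_image
    intro R hR
    rw [Finset.mem_image] at hR
    obtain ⟨x0, hx0, rfl⟩ := hR
    have h1 : ((S.filter (fun x => x.1 = x0.1)).image Prod.snd).card ≤ n := by
      apply roots_le (hS x0 hx0).1 (pol n a) (pol_monic n (by omega) a)
        (pol_natDegree n (by omega) a)
      intro m hm
      rw [Finset.mem_image] at hm
      obtain ⟨x, hx, rfl⟩ := hm
      rw [Finset.mem_filter] at hx
      obtain ⟨_, _, h3, h4, _⟩ := hS x hx.1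
      rw [hx.2] at h3 h4
      exact ⟨h3, h4⟩
    rwa [Finset.card_image_of_injOn] at h1
    intro x hx y hy hxy
    rw [Finset.mem_coe, Finset.mem_filter] at hx hy
    exact Prod.ext (hx.2.trans hy.2.symm) hxy
  calc S.card ≤ n * (S.image Prod.fst).card := hcard2
    _ ≤ n * (4 * n ^ 2 * d) := Nat.mul_le_mul_left _ hcard1
    _ = 4 * n ^ 3 * d := by ring

end Pool.Agent.D0H25.SFK.FAM
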