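import Pool.Agent.D0H25.SFK.FAMa
import Pool.Agent.D0H25.SFK.FAMb

/-!
# Project SFK, module FAM: the family is large (adapted from `Pool.Agent.D0H87.SF.FAM`)
-/

set_option autoImplicit false

open Polynomial NumberField

namespace Pool.Agent.D0H25.SFK.FAM

open Pool.Agent.D0H15.SK

theorem expo (n k : ℕ) (hk : 2 ≤ k) (hn : 2 * k ≤ n) :
    2 * (k * (n + 1 - k)) +
      ((n + 1 - 2 * k) * (n + 2 - 2 * k) - 2 + (k - 2) * (n + 1 - k)) =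
    n ^ 2 + n - 2 - k * (n + 1 - k) := by
  obtain ⟨k', rfl⟩ := Nat.exists_eq_add_of_le hk
  obtain ⟨d, rfl⟩ := Nat.exists_eq_add_of_le hn
  have h1 : 2 * (2 + k') + d + 1 - (2 + k') = k' + d + 3 := by omega
  have h2 : 2 * (2 + k') + d + 1 - 2 * (2 + k') = d + 1 := by omega
  have h3 : 2 * (2 + k') + d + 2 - 2 * (2 + k') = d + 2 := by omega
  have h4 : 2 + k' - 2 = k' := by omega
  rw [h1, h2, h3, h4]
  have h5 : (2 * (2 + k') + d) ^ 2 + (2 * (2 + k') + d) =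
      (3 * k' ^ 2 + d ^ 2 + 3 * (k' * d) + 13 * k' + 7 * d + 12) +
        (2 + (2 + k') * (k' + d + 3)) := by ring
  have h6 : (d + 1) * (d + 2) = d ^ 2 + 3 * d + 2 := by ring
  have h7 : (2 + k') * (k' + d + 3) = k' ^ 2 + k' * d + 5 * k' + 2 * d + 6 := by ring
  have h8 : k' * (k' + d + 3) = k' ^ 2 + k' * d + 3 * k' := by ring
  rw [h5, h6, h7, h8]
  omega

theorem t_FAM : S_CNT → S_PR → S_GM → S_CO → S_FAM := by
  classical
  intro hCNT hPR hGM hCO K _ _ n k q hk hn hq a0 hirr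
  obtain ⟨c₀', C₀, hc₀', hC₀, hcnt'⟩ := hCNT K
  -- a smaller constant
  obtain ⟨c₀, hc₀def⟩ : ∃ c₀ : ℝ, c₀ = min c₀' 1 := ⟨_, rfl⟩
  have hc₀ : 0 < c₀ := by rw [hc₀def]; exact lt_min hc₀' one_pos
  have hc₁ : c₀ ≤ 1 := by rw [hc₀def]; exact min_le_right _ _
  have hcnt : ∀ B : ℝ, 1 ≤ B → ∃ S : Finset (𝓞 K), (∀ a, a ∈ S ↔ Ht a B) ∧
      c₀ * B ^ (Module.finrank ℚ K) ≤ (S.card : ℝ) := by
    intro B hB
    obtain ⟨S, h1, h2, _⟩ := hcnt' B hB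
    refine ⟨S, h1, le_trans ?_ h2⟩
    refine mul_le_mul_of_nonneg_right ?_ (by positivity)
    rw [hc₀def]
    exact min_le_left _ _
  obtain ⟨d, hd⟩ : ∃ d, d = Module.finrank ℚ K := ⟨_, rfl⟩
  have hd1 : 1 ≤ d := by rw [hd]; exact Module.finrank_pos
  obtain ⟨C₂, hC₂, V₂, hGM'⟩ := hGM K n k hk hn
  obtain ⟨C₁, c₂, hC₁, hc₂, hCO'⟩ := hCO K n k hk hn C₂ hC₂
  rw [← hd] at hcnt hCO' hGM'
  obtain ⟨e, he⟩ : ∃ e, e = d * (k * (n + 1 - k)) := ⟨_, rfl⟩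
  have he1 : 1 ≤ e := by
    rw [he]
    have h1 : 1 ≤ n + 1 - k := by omega
    have h2 : 1 ≤ k * (n + 1 - k) := by nlinarith
    exact Nat.mul_pos (by omega) (by omega)
  obtain ⟨V₃, hPR'⟩ := hPR K e he1
  obtain ⟨M, hM0, hM⟩ : ∃ M : ℝ, 0 ≤ M ∧ ∀ i, Ht (a0 i) M := by
    refine ⟨∑ i, ∑ φ : K →+* ℂ, ‖φ (a0 i : K)‖, Finset.sum_nonneg (fun i _ =>
      Finset.sum_nonneg (fun φ _ => norm_nonneg _)), fun i φ => ?_⟩
    have h1 : ‖φ (a0 i : K)‖ ≤ ∑ φ : K →+* ℂ, ‖φ (a0 i : K)‖ :=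
      Finset.single_le_sum (f := fun φ : K →+* ℂ => ‖φ (a0 i : K)‖)
        (fun φ _ => norm_nonneg _) (Finset.mem_univ φ)
    exact h1.trans (Finset.single_le_sum (f := fun i => ∑ φ : K →+* ℂ, ‖φ (a0 i : K)‖)
      (fun i _ => Finset.sum_nonneg (fun φ _ => norm_nonneg _)) (Finset.mem_univ i))
  have hq0 : (0 : ℝ) < q := by exact_mod_cast hq
  have hCpos : 0 < M + q * (C₁ + 1) := by positivity
  obtain ⟨V₁, hmult⟩ := mult (K := K) (by omega : 4 ≤ n) (M + q * (C₁ + 1)) hCpos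
  rw [← hd] at hmult
  -- the constant
  obtain ⟨c₃, hc₃⟩ : ∃ c₃ : ℝ, c₃ = c₀ ^ (n - 1) * c₂ := ⟨_, rfl⟩
  have hc₃0 : 0 < c₃ := by rw [hc₃]; positivity
  refine ⟨M + q * (C₁ + 1), hCpos, V₁ + V₂ + V₃ + q +
    ⌈(2 * (4 * n ^ 3 * d : ℕ) : ℝ) / c₃⌉₊ + 2, ?_⟩
  intro V hV
  rw [← hd]
  have hV1 : 1 ≤ V := by omega
  have hVR : (1 : ℝ) ≤ V := by exact_mod_cast hV1
  have hVc : (2 * (4 * n ^ 3 * d : ℕ) : ℝ) ≤ c₃ * V := by
    have h1 : (2 * (4 * n ^ 3 * d : ℕ) : ℝ) / c₃ ≤ V :=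
      (Nat.le_ceil _).trans (by exact_mod_cast (by omega : ⌈(2 * (4 * n ^ 3 * d : ℕ) : ℝ) / c₃⌉₊ ≤ V))
    rw [div_le_iff₀ hc₃0] at h1
    linarith
  have hVe : V ≤ V ^ e := Nat.le_self_pow (by omega) _
  obtain ⟨Pr, hPrc, hPr'⟩ := hPR' V (by omega)
  have hG : ∀ R : Ideal (𝓞 K), R ∈ Pr → ∃ G : Finset ℕ, G ⊆ Finset.range (Ideal.absNorm R) ∧
      Ideal.absNorm R ≤ 2 * G.card ∧ ∀ m ∈ G, Short k n V R C₂ (m : 𝓞 K) := by
    intro R hR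
    obtain ⟨h1, h2, h3⟩ := hPr' R hR
    exact hGM' V R (by omega) h1 (by rw [← he]; exact h2) (by rw [← he]; exact h3)
  choose! G hG1 hG2 hG3 using hG
  set Q : Finset (Ideal (𝓞 K) × ℕ) := (Pr.sigma G).image (fun x => (x.1, x.2)) with hQdef
  have hQ : ∀ x : Ideal (𝓞 K) × ℕ, x ∈ Q → x.1 ∈ Pr ∧ x.2 ∈ G x.1 := by
    intro x hx
    rw [hQdef, Finset.mem_image] at hx
    obtain ⟨y, hy, rfl⟩ := hx
    exact Finset.mem_sigma.1 hy
  have hQc : V ^ (e - 1) * V ^ e ≤ 2 * Q.card := by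
    rw [hQdef, Finset.card_image_of_injective, Finset.card_sigma, Finset.mul_sum]
    · calc V ^ (e - 1) * V ^ e ≤ Pr.card * V ^ e := Nat.mul_le_mul_right _ hPrc
        _ = ∑ _r ∈ Pr, V ^ e := by rw [Finset.sum_const, smul_eq_mul]
        _ ≤ ∑ r ∈ Pr, 2 * (G r).card := by
            apply Finset.sum_le_sum
            intro r hr
            exact (hPr' r hr).2.1.le.trans (hG2 r hr)
    · rintro ⟨a, b⟩ ⟨c, d⟩ h
      simp only [Prod.mk.injEq] at h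
      obtain ⟨rfl, rfl⟩ := h
      rfl
  obtain ⟨top, htop1, htop2, htop3⟩ := exists_top hc₀ hc₁ hcnt n k V hV1 hk hn
  obtain ⟨E, hE⟩ : ∃ E, E = (n + 1 - 2 * k) * (n + 2 - 2 * k) - 2 + (k - 2) * (n + 1 - k) :=
    ⟨_, rfl⟩
  have hA : ∀ x : Ideal (𝓞 K) × ℕ, x ∈ Q → ∃ A : Finset (Fin (n - 1) → 𝓞 K),
      c₃ * (V : ℝ) ^ (d * E) ≤ (A.card : ℝ) ∧
      ∀ a ∈ A, (∀ i, Ht (a i) ((M + q * (C₁ + 1)) * (V : ℝ) ^ (2 * (n - (i : ℕ))))) ∧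
        (∀ i, (q : 𝓞 K) ∣ a i - a0 i) ∧ (pol n a).eval (x.2 : 𝓞 K) ∈ x.1 ^ 2 ∧
        (derivative (pol n a)).eval (x.2 : 𝓞 K) ∈ x.1 := by
    intro x hx
    obtain ⟨h1, h2⟩ := hQ x hx
    obtain ⟨h3, h4, h5⟩ := hPr' x.1 h1
    obtain ⟨A, hA1, hA2⟩ := fiber hk hn hq a0 C₁ M
      (c₂ * (V : ℝ) ^ (d * ((k - 2) * (n + 1 - k)))) hC₁ hM0 hM V x.1 (x.2 : 𝓞 K) hV1 (by
        rw [Nat.isCoprime_iff_coprime]
        apply Nat.Coprime.symm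
        rw [h3.coprime_iff_not_dvd]
        intro hdvd
        have := Nat.le_of_dvd (by omega) hdvd
        omega) top htop1 htop2
      (hCO' V x.1 (x.2 : 𝓞 K) hV1 h3 (by rw [← he]; exact h5) (hG3 x.1 h1 x.2 h2))
    refine ⟨A, le_trans ?_ hA1, hA2⟩
    calc c₃ * (V : ℝ) ^ (d * E) =
        (c₀ ^ (n - 1) * (V : ℝ) ^ (d * ((n + 1 - 2 * k) * (n + 2 - 2 * k) - 2))) *
          (c₂ * (V : ℝ) ^ (d * ((k - 2) * (n + 1 - k)))) := by
          rw [hc₃, hE, mul_add, pow_add]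
          ring
      _ ≤ _ := mul_le_mul_of_nonneg_right htop3 (by positivity)
  choose! A hA1 hA2 using hA
  have hmem : ∀ a, a ∈ Q.biUnion A → ∃ x ∈ Q, a ∈ A x := by
    intro a ha
    exact Finset.mem_biUnion.1 ha
  have hdc : ∑ x ∈ Q, (A x).card ≤ (Q.biUnion A).card * (4 * n ^ 3 * d) := by
    have h1 := Finset.sum_card_bipartiteAbove_eq_sum_card_bipartiteBelow (s := Q)
      (t := Q.biUnion A) (fun x a => a ∈ A x)
    have h2 : ∀ x ∈ Q, (Finset.bipartiteAbove (fun x a => a ∈ A x) (Q.biUnion A) x).card =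
        (A x).card := by
      intro x hx
      congr 1
      ext a
      rw [Finset.bipartiteAbove, Finset.mem_filter]
      exact ⟨fun h => h.2, fun h => ⟨Finset.mem_biUnion.2 ⟨x, hx, h⟩, h⟩⟩
    rw [← Finset.sum_congr rfl h2, h1]
    rw [← smul_eq_mul]
    apply Finset.sum_le_card_nsmul
    intro a ha
    obtain ⟨x0, hx0, hax0⟩ := hmem a ha
    obtain ⟨g1, g2, _, _⟩ := hA2 x0 hx0 a hax0
    apply hmult V (by omega) a (hirr a g2) g1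
    intro x hx
    rw [Finset.bipartiteBelow, Finset.mem_filter] at hx
    obtain ⟨h3, h4⟩ := hx
    obtain ⟨h5, h6⟩ := hQ x h3
    obtain ⟨h7, h8, h9⟩ := hPr' x.1 h5
    obtain ⟨_, _, g3, g4⟩ := hA2 x h3 a h4
    refine ⟨h7, by omega, Finset.mem_range.1 (hG1 x.1 h5 h6), ?_, g4⟩
    exact Ideal.pow_le_self (by norm_num) g3
  refine ⟨Q.biUnion A, ?_, ?_⟩
  · -- the count
    have h1 : c₃ * (V : ℝ) ^ (d * E) * (Q.card : ℝ) ≤ ∑ x ∈ Q, ((A x).card : ℝ) := by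
      calc c₃ * (V : ℝ) ^ (d * E) * (Q.card : ℝ) = ∑ _x ∈ Q, c₃ * (V : ℝ) ^ (d * E) := by
            rw [Finset.sum_const, nsmul_eq_mul, mul_comm]
        _ ≤ _ := Finset.sum_le_sum fun x hx => hA1 x hx
    have h2 : (∑ x ∈ Q, ((A x).card : ℝ)) ≤ ((Q.biUnion A).card : ℝ) * (4 * n ^ 3 * d : ℕ) := by
      exact_mod_cast hdc
    have h3 : (V : ℝ) ^ (e - 1) * (V : ℝ) ^ e ≤ 2 * (Q.card : ℝ) := by exact_mod_cast hQc
    have h4 := expo n k hk hn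
    rw [← hE] at h4
    have h5 : (e - 1) + e + d * E = (d * (n ^ 2 + n - 2 - k * (n + 1 - k)) - 2) + 1 := by
      rw [← h4, mul_add]
      have h6 : d * (2 * (k * (n + 1 - k))) = 2 * e := by rw [he]; ring
      rw [h6]
      have h7 : 2 ≤ 2 * e + d * E := by omega
      omega
    have h6 : (V : ℝ) ^ (d * (n ^ 2 + n - 2 - k * (n + 1 - k)) - 2) * V * c₃ ≤
        ((Q.biUnion A).card : ℝ) * (2 * (4 * n ^ 3 * d : ℕ)) := by
      calc _ = c₃ * (V : ℝ) ^ (d * E) * ((V : ℝ) ^ (e - 1) * (V : ℝ) ^ e) := by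
            rw [← pow_succ, ← h5, pow_add, pow_add]
            ring
        _ ≤ c₃ * (V : ℝ) ^ (d * E) * (2 * (Q.card : ℝ)) :=
            mul_le_mul_of_nonneg_left h3 (by positivity)
        _ = 2 * (c₃ * (V : ℝ) ^ (d * E) * (Q.card : ℝ)) := by ring
        _ ≤ 2 * (((Q.biUnion A).card : ℝ) * (4 * n ^ 3 * d : ℕ)) := by
            have := h1.trans h2
            linarith
        _ = _ := by ring
    have h7 : (V : ℝ) ^ (d * (n ^ 2 + n - 2 - k * (n + 1 - k)) - 2) * (V * c₃) ≤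
        ((Q.biUnion A).card : ℝ) * (V * c₃) := by
      calc _ = (V : ℝ) ^ (d * (n ^ 2 + n - 2 - k * (n + 1 - k)) - 2) * V * c₃ := by ring
        _ ≤ _ := h6
        _ ≤ ((Q.biUnion A).card : ℝ) * (V * c₃) :=
            mul_le_mul_of_nonneg_left (by linarith) (by positivity)
    have h8 : (V : ℝ) ^ (d * (n ^ 2 + n - 2 - k * (n + 1 - k)) - 2) ≤
        ((Q.biUnion A).card : ℝ) := le_of_mul_le_mul_right h7 (by positivity)
    exact_mod_cast h8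
  · intro a ha
    obtain ⟨x, hx, hax⟩ := hmem a ha
    obtain ⟨g1, g2, g3, g4⟩ := hA2 x hx a hax
    obtain ⟨h7, h8, h9⟩ := hPr' x.1 (hQ x hx).1
    refine ⟨g1, g2, x.1, (x.2 : 𝓞 K), h7, ?_, g3, g4⟩
    rw [← hd, ← he]
    exact h8

end Pool.Agent.D0H25.SFK.FAM
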