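import Pool.Agent.D0H15.SK.Stm
import Pool.Agent.D0H87.SF.PAK

/-! Project SFK, modules ONE and PKF. -/

set_option autoImplicit false
set_option linter.unusedSectionVars false

namespace Pool.Agent.D0H25.SFK

open Polynomial NumberField
open Pool.Agent.D0H15.SK

section

variable (K : Type) [Field K] [NumberField K]

theorem algKb : Algebra.IsAlgebraic ℚ (AlgebraicClosure K) :=
  Algebra.IsAlgebraic.trans ℚ K (AlgebraicClosure K)

variable {K}

/-- every complex root of the minimal polynomial is the value of an embedding -/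
theorem root_emb (x : AlgebraicClosure K) (z : ℂ) (hz : aeval z (minpoly ℚ x) = 0) :
    ∃ φ : AlgebraicClosure K →+* ℂ, φ x = z := by
  have := algKb K
  obtain ⟨φ, hφ⟩ := (IntermediateField.exists_algHom_of_splits_of_aeval (K := ℂ) (F := ℚ)
    (E := AlgebraicClosure K)
    (fun s => ⟨(Algebra.IsAlgebraic.isAlgebraic s).isIntegral, IsAlgClosed.splits _⟩) (x := x) (y := z)
    hz)
  exact ⟨φ.toRingHom, hφ⟩

/-- embeddings extend -/
theorem ext_emb (L : IntermediateField K (AlgebraicClosure K)) (φ : L →+* ℂ) :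
    ∃ ψ : AlgebraicClosure K →+* ℂ, ∀ x : L, ψ x = φ x := by
  let _ : Algebra L ℂ := φ.toAlgebra
  have : Algebra.IsAlgebraic L (AlgebraicClosure K) :=
    Algebra.IsAlgebraic.tower_top (K := K) L
  let ψ : AlgebraicClosure K →ₐ[L] ℂ := IsAlgClosed.lift
  exact ⟨ψ.toRingHom, fun x => ψ.commutes x⟩

end

theorem prod_le (s : Multiset ℂ) (h : ∀ z ∈ s, ‖z‖ ≤ 1) : ‖s.prod‖ ≤ 1 := by
  induction s using Multiset.induction_on with
  | empty => simp
  | cons a s ih =>
    rw [Multiset.prod_cons, norm_mul]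
    exact mul_le_one₀ (h a (by simp)) (norm_nonneg _) (ih fun z hz => h z (by simp [hz]))

theorem t_ONE : S_ONE := by
  intro K _ _ x hx hx0
  by_contra hcon
  unfold Lrg at hcon
  push Not at hcon
  have hxQ : IsIntegral ℚ x := hx.tower_top
  have hm : minpoly ℚ x = (minpoly ℤ x).map (algebraMap ℤ ℚ) := minpoly.isIntegrallyClosed_eq_field_fractions' ℚ hx
  set f : ℂ[X] := (minpoly ℤ x).map (algebraMap ℤ ℂ) with hf
  have hmon : f.Monic := (minpoly.monic hx).map _
  have hsp : f.Splits := IsAlgClosed.splits f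
  have hdeg : f.natDegree ≠ 0 := by
    rw [hf, (minpoly.monic hx).natDegree_map]
    exact (minpoly.natDegree_pos hx).ne'
  have h1 := hsp.coeff_zero_eq_prod_roots_of_monic hmon
  have h2 : f.coeff 0 = ((minpoly ℤ x).coeff 0 : ℂ) := by
    rw [hf, coeff_map]
    rfl
  have h3 : (minpoly ℤ x).coeff 0 ≠ 0 := by
    intro h
    have h' : (minpoly ℚ x).coeff 0 ≠ 0 := minpoly.coeff_zero_ne_zero hxQ hx0
    apply h'
    rw [hm, coeff_map, h, map_zero]
  have h4 : ∀ z ∈ f.roots, ‖z‖ < 1 := by
    intro z hz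
    have : aeval z (minpoly ℚ x) = 0 := by
      rw [hm, aeval_map_algebraMap, aeval_def, ← eval_map]
      exact (mem_roots hmon.ne_zero).1 hz
    obtain ⟨φ, hφ⟩ := root_emb x z this
    rw [← hφ]
    exact hcon φ
  have h5 : f.roots.card = f.natDegree := hsp.natDegree_eq_card_roots.symm
  obtain ⟨a, ha⟩ := Multiset.card_pos_iff_exists_mem.1 (by rw [h5]; exact Nat.pos_of_ne_zero hdeg)
  obtain ⟨s, hs⟩ := Multiset.exists_cons_of_mem ha
  have h6 : ‖f.roots.prod‖ < 1 := by
    rw [hs, Multiset.prod_cons, norm_mul]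
    have h7 : ‖s.prod‖ ≤ 1 := prod_le s fun z hz => (h4 z (by rw [hs]; simp [hz])).le
    calc ‖a‖ * ‖s.prod‖ ≤ ‖a‖ * 1 := mul_le_mul_of_nonneg_left h7 (norm_nonneg _)
      _ < 1 := by rw [mul_one]; exact h4 a ha
  have h8 : ‖((minpoly ℤ x).coeff 0 : ℂ)‖ < 1 := by
    rw [← h2, h1, norm_mul, norm_pow, norm_neg, norm_one, one_pow, one_mul]
    exact h6
  rw [Complex.norm_intCast] at h8
  have h9 : |(minpoly ℤ x).coeff 0| < 1 := by exact_mod_cast h8
  exact h3 (Int.abs_lt_one_iff.1 h9)

theorem t_PKF : S_PKF := by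
  intro K _ _ L _ S T l d hl hT hS hsep hd
  classical
  have hfd : FiniteDimensional ℚ L := FiniteDimensional.trans ℚ K L
  have hNF : NumberField L := @NumberField.mk _ _ _ hfd
  choose ψ hψ using ext_emb L
  let g : AlgebraicClosure K →ₗ[ℚ] ((L →+* ℂ) → ℂ) :=
    { toFun := fun x φ => ψ φ x
      map_add' := by
        intro x y
        funext φ
        simp
      map_smul' := by
        intro c x
        funext φ
        exact map_rat_smul (ψ φ) c x }
  have hg : ∀ x φ, g x φ = ψ φ x := fun _ _ => rfl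
  let W : Submodule ℝ ((L →+* ℂ) → ℂ) := Submodule.span ℝ (g '' (S : Set (AlgebraicClosure K)))
  -- the dimension
  let U : Submodule K (AlgebraicClosure K) :=
    Submodule.span K (S : Set (AlgebraicClosure K))
  have : FiniteDimensional K U := FiniteDimensional.span_finset K S
  have : FiniteDimensional ℚ U := FiniteDimensional.trans ℚ K U
  have hWd : Module.finrank ℝ W ≤ Module.finrank ℚ K * d := by
    refine le_trans ?_ (Nat.mul_le_mul_left _ hd)
    rw [Module.finrank_mul_finrank ℚ K U]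
    let b := Module.finBasis ℚ U
    have h1 : W ≤ Submodule.span ℝ (Set.range fun i => g (b i : AlgebraicClosure K)) := by
      rw [Submodule.span_le]
      rintro _ ⟨x, hx, rfl⟩
      have hxU : x ∈ U := Submodule.subset_span hx
      have h2 : x = ∑ i, b.repr ⟨x, hxU⟩ i • (b i : AlgebraicClosure K) := by
        have h3 := congrArg (fun u : U => (u : AlgebraicClosure K)) (b.sum_repr ⟨x, hxU⟩)
        simp only [Submodule.coe_sum] at h3
        exact h3.symm
      rw [h2, map_sum]
      apply Submodule.sum_mem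
      intro i _
      rw [map_smul]
      have h4 : (b.repr ⟨x, hxU⟩ i) • g (b i : AlgebraicClosure K) =
          ((b.repr ⟨x, hxU⟩ i : ℚ) : ℝ) • g (b i : AlgebraicClosure K) := by
        funext φ
        simp [Rat.smul_def]
      rw [h4]
      exact Submodule.smul_mem _ _ (Submodule.subset_span ⟨i, rfl⟩)
    refine (Submodule.finrank_mono h1).trans ?_
    refine (finrank_range_le_card _).trans ?_
    rw [Fintype.card_fin]
  -- norms
  have hL : ∀ (θ : AlgebraicClosure K →+* ℂ) (x : AlgebraicClosure K), x ∈ L →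
      ∃ φ : L →+* ℂ, g x φ = θ x := by
    intro θ x hx
    refine ⟨θ.comp (algebraMap L (AlgebraicClosure K)), ?_⟩
    rw [hg, show x = ((⟨x, hx⟩ : L) : AlgebraicClosure K) from rfl, hψ]
    rfl
  have hinj : Set.InjOn g (S : Set (AlgebraicClosure K)) := by
    intro x hx y hy hxy
    by_contra hne
    obtain ⟨θ, hθ⟩ := hsep x hx y hy hne
    obtain ⟨φ, hφ⟩ := hL θ (x - y) (L.sub_mem (hS x hx).1 (hS y hy).1)
    rw [← hφ, map_sub, hxy, sub_self] at hθ
    simp only [Pi.zero_apply, norm_zero] at hθ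
    linarith
  have hcard : (S.image g).card = S.card := Finset.card_image_of_injOn hinj
  have h5 := Pool.Agent.D0H87.SF.PAK.t_PAK ((L →+* ℂ) → ℂ) W (S.image g) T l hT hl ?_ ?_
  · rw [hcard] at h5
    refine h5.trans ?_
    apply pow_le_pow_right₀ _ hWd
    have : 0 ≤ 2 * T / l := by positivity
    linarith
  · intro v hv
    obtain ⟨x, hx, rfl⟩ := Finset.mem_image.1 hv
    refine ⟨Submodule.subset_span ⟨x, hx, rfl⟩, ?_⟩
    rw [pi_norm_le_iff_of_nonneg hT]
    intro φ
    exact (hS x hx).2 (ψ φ)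
  · intro v hv w hw hne
    obtain ⟨x, hx, rfl⟩ := Finset.mem_image.1 hv
    obtain ⟨y, hy, rfl⟩ := Finset.mem_image.1 hw
    have hxy : x ≠ y := fun h => hne (by rw [h])
    obtain ⟨θ, hθ⟩ := hsep x hx y hy hxy
    obtain ⟨φ, hφ⟩ := hL θ (x - y) (L.sub_mem (hS x hx).1 (hS y hy).1)
    rw [← map_sub]
    refine le_trans ?_ (norm_le_pi_norm _ φ)
    rw [hφ]
    exact hθ

end Pool.Agent.D0H25.SFK
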