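import Pool.Agent.D0H25.SFK.CO

/-!
# Project SFK, module FAM, part a: the polynomials of the family for a fixed pair `(R, m)`
(adapted from `Pool.Agent.D0H87.SF.FAMa`)
-/

set_option autoImplicit false
set_option linter.unusedSectionVars false

open Polynomial NumberField

namespace Pool.Agent.D0H25.SFK.FAM

open Pool.Agent.D0H15.SK Pool.Agent.D0H25.SFK.CO

variable {K : Type} [Field K] [NumberField K]

theorem pol_eq {n : ℕ} (a : Fin (n - 1) → 𝓞 K) : pol n a = X ^ n + P a := rfl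

theorem pol_eval {n : ℕ} (a : Fin (n - 1) → 𝓞 K) (m : 𝓞 K) :
    (pol n a).eval m = m ^ n + ev a m := by
  rw [pol_eq, eval_add, eval_pow, eval_X, P_eval]

theorem pol_deriv {n : ℕ} (a : Fin (n - 1) → 𝓞 K) (m : 𝓞 K) :
    (derivative (pol n a)).eval m = (n : 𝓞 K) * m ^ (n - 1) + dv a m := by
  rw [pol_eq, derivative_add, eval_add, P_deriv, derivative_X_pow]
  simp

/-- extension by zero -/
noncomputable def ext {n k : ℕ} (b : Fin (2 * k - 1) → 𝓞 K) : Fin (n - 1) → 𝓞 K :=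
  fun i => if h : (i : ℕ) < 2 * k - 1 then b ⟨i, h⟩ else 0

theorem P_ext {n k : ℕ} (hn : 2 * k ≤ n) (b : Fin (2 * k - 1) → 𝓞 K) :
    P (ext (n := n) b) = P b := by
  ext l
  by_cases hl : l < n - 1
  · rw [show (P (ext (n := n) b)).coeff l = ext b ⟨l, hl⟩ from P_coeff (ext b) ⟨l, hl⟩]
    by_cases h : l < 2 * k - 1
    · rw [show (P b).coeff l = b ⟨l, h⟩ from P_coeff b ⟨l, h⟩, ext, dif_pos h]
    · rw [P_coeff_ge b l (by omega), ext, dif_neg h]
  · rw [P_coeff_ge _ l (by omega), P_coeff_ge _ l (by omega)]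

theorem ev_ext {n k : ℕ} (hn : 2 * k ≤ n) (b : Fin (2 * k - 1) → 𝓞 K) (m : 𝓞 K) :
    ev (ext (n := n) b) m = ev b m := by
  rw [← P_eval, P_ext hn, P_eval]

theorem dv_ext {n k : ℕ} (hn : 2 * k ≤ n) (b : Fin (2 * k - 1) → 𝓞 K) (m : 𝓞 K) :
    dv (ext (n := n) b) m = dv b m := by
  rw [← P_deriv, P_ext hn, P_deriv]

theorem sum_top (d : ℕ) : ∑ x ∈ Finset.range d, 2 * (d + 1 - x) + 2 = (d + 1) * (d + 2) := by
  induction d with
  | zero => simp
  | succ d ih =>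
    rw [Finset.sum_range_succ']
    have h1 : ∀ x ∈ Finset.range d, 2 * (d + 1 + 1 - (x + 1)) = 2 * (d + 1 - x) := by
      intro x _
      omega
    rw [Finset.sum_congr rfl h1]
    have h2 : 2 * (d + 1 + 1 - 0) = 2 * (d + 2) := by omega
    rw [h2]
    nlinarith

theorem sum_exp (n k : ℕ) (hk : 2 ≤ k) (hn : 2 * k ≤ n) :
    ∑ i : Fin (n - 1), (if (i : ℕ) < 2 * k - 1 then 0 else 2 * (n - (i : ℕ))) =
      (n + 1 - 2 * k) * (n + 2 - 2 * k) - 2 := by
  rw [Fin.sum_univ_eq_sum_range (fun i => if i < 2 * k - 1 then 0 else 2 * (n - i)) (n - 1)]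
  obtain ⟨d, rfl⟩ := Nat.exists_eq_add_of_le hn
  have h1 : 2 * k + d - 1 = (2 * k - 1) + d := by omega
  rw [h1, Finset.sum_range_add]
  have h2 : ∑ x ∈ Finset.range (2 * k - 1), (if x < 2 * k - 1 then 0 else 2 * (2 * k + d - x)) = 0 := by
    apply Finset.sum_eq_zero
    intro x hx
    rw [if_pos (Finset.mem_range.1 hx)]
  have h3 : ∑ x ∈ Finset.range d, (if 2 * k - 1 + x < 2 * k - 1 then 0 else
      2 * (2 * k + d - (2 * k - 1 + x))) = ∑ x ∈ Finset.range d, 2 * (d + 1 - x) := by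
    apply Finset.sum_congr rfl
    intro x _
    rw [if_neg (by omega)]
    congr 1
    omega
  rw [h2, h3, zero_add]
  have h4 := sum_top d
  have h5 : 2 * k + d + 1 - 2 * k = d + 1 := by omega
  have h6 : 2 * k + d + 2 - 2 * k = d + 2 := by omega
  rw [h5, h6]
  omega

/-- the top coefficients -/
theorem exists_top {d : ℕ} {c₀ : ℝ} (hc₀ : 0 < c₀) (hc₁ : c₀ ≤ 1)
    (hcnt : ∀ B : ℝ, 1 ≤ B → ∃ S : Finset (𝓞 K), (∀ a, a ∈ S ↔ Ht a B) ∧
      c₀ * B ^ d ≤ (S.card : ℝ)) (n k V : ℕ) (hV : 1 ≤ V) (hk : 2 ≤ k) (hn : 2 * k ≤ n) :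
    ∃ S : Finset (Fin (n - 1) → 𝓞 K),
      (∀ b ∈ S, ∀ j : Fin (n - 1), (j : ℕ) < 2 * k - 1 → b j = 0) ∧
      (∀ b ∈ S, ∀ j, Ht (b j) ((V : ℝ) ^ (2 * (n - (j : ℕ))))) ∧
      c₀ ^ (n - 1) * (V : ℝ) ^ (d * ((n + 1 - 2 * k) * (n + 2 - 2 * k) - 2)) ≤
        (S.card : ℝ) := by
  classical
  have hV' : (1 : ℝ) ≤ V := by exact_mod_cast hV
  choose S hS1 hS2 using fun j : Fin (n - 1) =>
    hcnt ((V : ℝ) ^ (2 * (n - (j : ℕ)))) (one_le_pow₀ hV')
  refine ⟨Fintype.piFinset (fun j : Fin (n - 1) => if (j : ℕ) < 2 * k - 1 then {0} else S j),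
    ?_, ?_, ?_⟩
  · intro b hb j hj
    have := Fintype.mem_piFinset.1 hb j
    rw [if_pos hj, Finset.mem_singleton] at this
    exact this
  · intro b hb j
    have := Fintype.mem_piFinset.1 hb j
    by_cases hj : (j : ℕ) < 2 * k - 1
    · rw [if_pos hj, Finset.mem_singleton] at this
      rw [this]
      intro φ
      simp
    · rw [if_neg hj] at this
      exact (hS1 j _).1 this
  · rw [Fintype.card_piFinset]
    push_cast
    calc c₀ ^ (n - 1) * (V : ℝ) ^ (d * ((n + 1 - 2 * k) * (n + 2 - 2 * k) - 2)) =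
        ∏ j : Fin (n - 1), (c₀ * (V : ℝ) ^ (d * (if (j : ℕ) < 2 * k - 1 then 0 else
          2 * (n - (j : ℕ))))) := by
          rw [Finset.prod_mul_distrib, Finset.prod_const, Finset.card_univ, Fintype.card_fin,
            Finset.prod_pow_eq_pow_sum, ← Finset.mul_sum, sum_exp n k hk hn]
      _ ≤ _ := by
        refine Finset.prod_le_prod (fun j _ => by positivity) (fun j _ => ?_)
        by_cases hj : (j : ℕ) < 2 * k - 1
        · rw [if_pos hj, if_pos hj, mul_zero, pow_zero, mul_one]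
          simpa using hc₁
        · rw [if_neg hj, if_neg hj]
          have := hS2 j
          rwa [← pow_mul, mul_comm (2 * (n - (j : ℕ))) d] at this

/-- The polynomials for a fixed pair. -/
theorem fiber {n k q : ℕ} (hk : 2 ≤ k) (hn : 2 * k ≤ n) (hq : 1 ≤ q) (a0 : Fin (n - 1) → 𝓞 K)
    (C₁ M cB : ℝ) (hC₁ : 0 < C₁) (hM0 : 0 ≤ M) (hM : ∀ i, Ht (a0 i) M)
    (V : ℕ) (R : Ideal (𝓞 K)) (m : 𝓞 K) (hV : 1 ≤ V)
    (hcop : IsCoprime (q : ℤ) (Ideal.absNorm R : ℤ)) (top : Finset (Fin (n - 1) → 𝓞 K))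
    (htop : ∀ b ∈ top, ∀ j : Fin (n - 1), (j : ℕ) < 2 * k - 1 → b j = 0)
    (htop' : ∀ b ∈ top, ∀ j, Ht (b j) ((V : ℝ) ^ (2 * (n - (j : ℕ)))))
    (hB : ∀ s t : 𝓞 K, ∃ B : Finset (Fin (2 * k - 1) → 𝓞 K),
      cB ≤ (B.card : ℝ) ∧
      ∀ b ∈ B, (∀ i, Ht (b i) (C₁ * (V : ℝ) ^ (2 * (n - (i : ℕ))))) ∧
        ev b m - s ∈ R ^ 2 ∧ dv b m - t ∈ R) :
    ∃ A : Finset (Fin (n - 1) → 𝓞 K),
      (top.card : ℝ) * cB ≤ (A.card : ℝ) ∧
      ∀ a ∈ A, (∀ i, Ht (a i) ((M + q * (C₁ + 1)) * (V : ℝ) ^ (2 * (n - (i : ℕ))))) ∧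
        (∀ i, (q : 𝓞 K) ∣ a i - a0 i) ∧ (pol n a).eval m ∈ R ^ 2 ∧
        (derivative (pol n a)).eval m ∈ R := by
  classical
  set r := Ideal.absNorm R with hr
  have hrR : (r : 𝓞 K) ∈ R := Ideal.absNorm_mem R
  have hsol : ∀ (F : 𝓞 K) (J : Ideal (𝓞 K)) (ρ : ℤ), (ρ : 𝓞 K) ∈ J → IsCoprime (q : ℤ) ρ →
      ∃ s : 𝓞 K, (q : 𝓞 K) * s + F ∈ J := by
    rintro F J ρ hρ ⟨u, v, huv⟩
    refine ⟨-F * u, ?_⟩
    have h1 : (u : 𝓞 K) * q + v * ρ = 1 := by exact_mod_cast congrArg (Int.cast : ℤ → 𝓞 K) huv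
    have h2 : (q : 𝓞 K) * (-F * u) + F = F * v * ρ := by linear_combination -F * h1
    rw [h2]
    exact Ideal.mul_mem_left _ _ hρ
  have hs : ∀ c : Fin (n - 1) → 𝓞 K, ∃ s : 𝓞 K,
      (q : 𝓞 K) * s + (pol n (a0 + (q : 𝓞 K) • c)).eval m ∈ R ^ 2 :=
    fun c => hsol _ _ ((r : ℤ) ^ 2) (by
      push_cast
      exact Ideal.pow_mem_pow hrR 2) hcop.pow_right
  have ht : ∀ c : Fin (n - 1) → 𝓞 K, ∃ t : 𝓞 K,
      (q : 𝓞 K) * t + (derivative (pol n (a0 + (q : 𝓞 K) • c))).eval m ∈ R :=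
    fun c => hsol _ _ (r : ℤ) (by exact_mod_cast hrR) hcop
  choose s hs using hs
  choose t ht using ht
  choose B hB1 hB2 using fun c : Fin (n - 1) → 𝓞 K => hB (s c) (t c)
  set Φ : (Σ _ : Fin (n - 1) → 𝓞 K, Fin (2 * k - 1) → 𝓞 K) → (Fin (n - 1) → 𝓞 K) :=
    fun x => a0 + (q : 𝓞 K) • (x.1 + ext x.2) with hΦ
  set S : Finset (Σ _ : Fin (n - 1) → 𝓞 K, Fin (2 * k - 1) → 𝓞 K) := top.sigma B with hS
  have hq0 : (q : 𝓞 K) ≠ 0 := by
    have : q ≠ 0 := by omega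
    exact_mod_cast this
  have hinj : Set.InjOn Φ S := by
    rintro ⟨c, b⟩ hx ⟨c', b'⟩ hx' h
    rw [Finset.mem_coe, hS, Finset.mem_sigma] at hx hx'
    simp only at hx hx'
    have h1 : c + ext b = c' + ext b' := by
      have h2 : a0 + (q : 𝓞 K) • (c + ext b) = a0 + (q : 𝓞 K) • (c' + ext b') := h
      have h3 := add_left_cancel h2
      funext i
      have h4 := congrFun h3 i
      simp only [Pi.smul_apply, smul_eq_mul] at h4
      exact mul_left_cancel₀ hq0 h4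
    have hc := htop _ hx.1
    have hc' := htop _ hx'.1
    have h3 : ∀ i : Fin (n - 1), c i = c' i ∧ (ext b : Fin (n - 1) → 𝓞 K) i = ext b' i := by
      intro i
      have h4 := congrFun h1 i
      simp only [Pi.add_apply] at h4
      by_cases hi : (i : ℕ) < 2 * k - 1
      · have h5 := hc i hi
        have h6 := hc' i hi
        rw [h5, h6, zero_add, zero_add] at h4
        exact ⟨by rw [h5, h6], h4⟩
      · have h5 : (ext b : Fin (n - 1) → 𝓞 K) i = 0 := by rw [ext, dif_neg hi]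
        have h6 : (ext b' : Fin (n - 1) → 𝓞 K) i = 0 := by rw [ext, dif_neg hi]
        rw [h5, h6, add_zero, add_zero] at h4
        exact ⟨h4, by rw [h5, h6]⟩
    have hcc : c = c' := funext fun i => (h3 i).1
    have hbb : b = b' := by
      funext j
      have hj := j.2
      have h4 := (h3 ⟨(j : ℕ), by omega⟩).2
      simp only [ext, hj, dif_pos] at h4
      exact h4
    rw [hcc, hbb]
  refine ⟨S.image Φ, ?_, ?_⟩
  · rw [Finset.card_image_of_injOn hinj, hS, Finset.card_sigma]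
    push_cast
    rw [← nsmul_eq_mul, ← Finset.sum_const]
    apply Finset.sum_le_sum
    intro c _
    exact hB1 c
  · intro a ha
    rw [Finset.mem_image] at ha
    obtain ⟨⟨c, b⟩, hx, rfl⟩ := ha
    rw [hS, Finset.mem_sigma] at hx
    simp only at hx
    have hc := htop _ hx.1
    have hc' := htop' _ hx.1
    obtain ⟨hb1, hb2, hb3⟩ := hB2 c b hx.2
    have hVR : (1 : ℝ) ≤ V := by exact_mod_cast hV
    refine ⟨?_, ?_, ?_, ?_⟩
    · intro i φ
      have hp : (1 : ℝ) ≤ (V : ℝ) ^ (2 * (n - (i : ℕ))) := one_le_pow₀ hVR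
      have h1 : ‖φ (((c + (ext b : Fin (n - 1) → 𝓞 K)) i : 𝓞 K) : K)‖ ≤
          (C₁ + 1) * (V : ℝ) ^ (2 * (n - (i : ℕ))) := by
        rw [Pi.add_apply]
        by_cases hi : (i : ℕ) < 2 * k - 1
        · rw [hc i hi, zero_add, ext, dif_pos hi]
          have h6 := hb1 ⟨(i : ℕ), hi⟩ φ
          simp only at h6
          refine h6.trans ?_
          apply mul_le_mul_of_nonneg_right _ (by positivity)
          linarith
        · rw [ext, dif_neg hi, add_zero]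
          refine (hc' i φ).trans ?_
          nlinarith
      have h2 : φ ((Φ ⟨c, b⟩ i : 𝓞 K) : K) = φ (a0 i : K) +
          q * φ (((c + (ext b : Fin (n - 1) → 𝓞 K)) i : 𝓞 K) : K) := by
        have h3 : (Φ ⟨c, b⟩ i : 𝓞 K) = a0 i + q * (c + (ext b : Fin (n - 1) → 𝓞 K)) i := by
          simp only [hΦ, Pi.add_apply, Pi.smul_apply, smul_eq_mul]
        rw [h3]
        show φ (algebraMap (𝓞 K) K _) = _
        rw [map_add, map_mul, map_natCast, map_add, map_mul, map_natCast]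
      rw [h2]
      calc ‖φ (a0 i : K) + q * φ (((c + (ext b : Fin (n - 1) → 𝓞 K)) i : 𝓞 K) : K)‖
          ≤ ‖φ (a0 i : K)‖ + ‖(q : ℂ) * φ (((c + (ext b : Fin (n - 1) → 𝓞 K)) i : 𝓞 K) : K)‖ :=
            norm_add_le _ _
        _ ≤ M * (V : ℝ) ^ (2 * (n - (i : ℕ))) +
            q * ((C₁ + 1) * (V : ℝ) ^ (2 * (n - (i : ℕ)))) := by
            apply add_le_add
            · refine (hM i φ).trans ?_
              exact le_mul_of_one_le_right hM0 hp
            · rw [norm_mul, Complex.norm_natCast]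
              exact mul_le_mul_of_nonneg_left h1 (Nat.cast_nonneg _)
        _ = _ := by ring
    · intro i
      refine ⟨(c + (ext b : Fin (n - 1) → 𝓞 K)) i, ?_⟩
      simp only [hΦ, Pi.add_apply, Pi.smul_apply, smul_eq_mul]
      ring
    · have h1 : (pol n (Φ ⟨c, b⟩)).eval m =
          ((q : 𝓞 K) * s c + (pol n (a0 + (q : 𝓞 K) • c)).eval m) +
            (q : 𝓞 K) * (ev b m - s c) := by
        rw [pol_eval, pol_eval]
        have h2 : Φ ⟨c, b⟩ = a0 + (q : 𝓞 K) • c + (q : 𝓞 K) • ext b := by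
          simp only [hΦ, smul_add]
          abel
        rw [h2, ev_add, ev_smul, ev_ext hn]
        ring
      rw [h1]
      exact Ideal.add_mem _ (hs c) (Ideal.mul_mem_left _ _ hb2)
    · have h1 : (derivative (pol n (Φ ⟨c, b⟩))).eval m =
          ((q : 𝓞 K) * t c + (derivative (pol n (a0 + (q : 𝓞 K) • c))).eval m) +
            (q : 𝓞 K) * (dv b m - t c) := by
        rw [pol_deriv, pol_deriv]
        have h2 : Φ ⟨c, b⟩ = a0 + (q : 𝓞 K) • c + (q : 𝓞 K) • ext b := by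
          simp only [hΦ, smul_add]
          abel
        rw [h2, dv_add, dv_smul, dv_ext hn]
        ring
      rw [h1]
      exact Ideal.add_mem _ (ht c) (Ideal.mul_mem_left _ _ hb3)

end Pool.Agent.D0H25.SFK.FAM
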